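import Pool.Agent.Hx18.PP.Nor

/-!
# All Tate classes are generated by divisors
-/

set_option autoImplicit false

open Polynomial NumberField Pool.Agent.W518.TC Pool.Agent.W518.DN

namespace Pool.Agent.Hx18.PP

/-- The polynomial `P` is monic and its complex roots have the absolute value `p ^ (a / 2)`. -/
structure IsWeil (p : ℕ) (a : ℕ) (P : ℤ[X]) : Prop where
  monic : P.Monic
  weil : ∀ z : ℂ, (P.map (Int.castRingHom ℂ)).IsRoot z → ‖z‖ ^ 2 = (p : ℝ) ^ a

/-- Some automorphism of the field of complex numbers fixes the root `z` of `P` and takes the root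
`w` of `Q` to its complex conjugate, for all `z` and `w`. -/
def Independent (P Q : ℤ[X]) : Prop :=
  ∀ z w : ℂ, (P.map (Int.castRingHom ℂ)).IsRoot z → (Q.map (Int.castRingHom ℂ)).IsRoot w →
    ∃ σ : ℂ ≃+* ℂ, σ z = z ∧ σ w = (starRingEnd ℂ) w

section basics

variable {p : ℕ} [hpp : Fact p.Prime] {a : ℕ} {L : Type} [Field L] [NumberField L]

lemma isRoot_map {K K' : Type} [Field K] [Field K'] (φ : K →+* K') {P : ℤ[X]} {x : K} :
    ((P.map (Int.castRingHom K'))).IsRoot (φ x) ↔ ((P.map (Int.castRingHom K))).IsRoot x := by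
  have h2 : (P.map (Int.castRingHom K')) = (P.map (Int.castRingHom K)).map φ := by
    rw [Polynomial.map_map]; congr 1; exact RingHom.ext_int _ _
  rw [h2, IsRoot.def, IsRoot.def, eval_map, eval₂_at_apply]
  exact map_eq_zero φ

lemma conj_eq {P : ℤ[X]} (hP : IsWeil p a P) {z : ℂ}
    (hz : (P.map (Int.castRingHom ℂ)).IsRoot z) :
    z ≠ 0 ∧ (starRingEnd ℂ) z = ((p ^ a : ℕ) : ℂ) / z := by
  have h1 := hP.weil z hz
  have hp0 : (0 : ℝ) < (p : ℝ) ^ a := by
    have : 0 < p := hpp.out.pos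
    positivity
  have hz0 : z ≠ 0 := by
    rintro rfl
    rw [norm_zero] at h1
    norm_num at h1
    linarith
  refine ⟨hz0, ?_⟩
  rw [eq_div_iff hz0, mul_comm, Complex.mul_conj, Complex.normSq_eq_norm_sq, h1]
  push_cast
  rfl

lemma sym_of {P : ℤ[X]} (hP : IsWeil p a P) : Sym (p ^ a) L P := by
  obtain ⟨φ⟩ : Nonempty (L →+* ℂ) := inferInstance
  intro x hx
  have h1 : (P.map (Int.castRingHom ℂ)).IsRoot (φ x) := (isRoot_map φ).2 hx
  obtain ⟨h2, h3⟩ := conj_eq hP h1
  refine ⟨fun h => h2 (by rw [h, map_zero]), ?_⟩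
  rw [← isRoot_map φ, map_div₀, map_natCast, ← h3]
  exact (isRoot_map (starRingEnd ℂ)).2 h1

lemma setup_of [IsGalois ℚ L] {P : ℤ[X]} (hP : IsWeil p a P) (hirr : Irreducible P)
    (hs : (P.map (Int.castRingHom L)).Splits) : Setup (L := L) p a P := by
  refine ⟨hs, sym_of hP, ?_⟩
  have hR : Irreducible (P.map (Int.castRingHom ℚ)) :=
    (IsPrimitive.Int.irreducible_iff_irreducible_map_cast hP.monic.isPrimitive).1 hirr
  have h3 : P.map (Int.castRingHom L) = (P.map (Int.castRingHom ℚ)).map (algebraMap ℚ L) := by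
    rw [Polynomial.map_map]; congr 1; exact RingHom.ext_int _ _
  have h1 : ∀ z : L, (P.map (Int.castRingHom L)).IsRoot z →
      aeval z (P.map (Int.castRingHom ℚ)) = 0 := by
    intro z h2
    rw [h3, IsRoot.def] at h2
    rwa [eval_map_algebraMap] at h2
  intro x y
  have h2 : minpoly ℚ x.1 = minpoly ℚ y.1 := by
    rw [← minpoly.eq_of_irreducible hR (h1 _ x.2), ← minpoly.eq_of_irreducible hR (h1 _ y.2)]
  obtain ⟨σ, hσ⟩ := minpoly.exists_algEquiv_of_root (K := ℚ) (x := x.1) (y := y.1)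
    (Algebra.IsAlgebraic.isAlgebraic _) (by rw [← h2]; exact minpoly.aeval _ _)
  exact ⟨σ, Subtype.ext hσ⟩

lemma flip_of [IsGalois ℚ L] {P Q : ℤ[X]} (hQ : IsWeil p a Q)
    (hind : Independent P Q) (x y : L) (hx : (P.map (Int.castRingHom L)).IsRoot x)
    (hy : (Q.map (Int.castRingHom L)).IsRoot y) :
    ∃ τ : L ≃ₐ[ℚ] L, τ x = x ∧ τ y = ((p ^ a : ℕ) : L) / y := by
  obtain ⟨φ⟩ : Nonempty (L →+* ℂ) := inferInstance
  have h1 : (P.map (Int.castRingHom ℂ)).IsRoot (φ x) := (isRoot_map φ).2 hx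
  have h2 : (Q.map (Int.castRingHom ℂ)).IsRoot (φ y) := (isRoot_map φ).2 hy
  obtain ⟨σ, h3, h4⟩ := hind _ _ h1 h2
  letI : Algebra L ℂ := φ.toAlgebra
  haveI : IsScalarTower ℚ L ℂ := IsScalarTower.of_algebraMap_eq fun r => by
    change (algebraMap ℚ ℂ) r = φ (algebraMap ℚ L r)
    simp
  let σ' : ℂ ≃ₐ[ℚ] ℂ := AlgEquiv.ofRingEquiv (f := σ) (fun r => by simp)
  have h5 : ∀ z : L, φ (σ'.restrictNormal L z) = σ (φ z) := fun z =>
    AlgEquiv.restrictNormal_commutes σ' L z
  refine ⟨σ'.restrictNormal L, ?_, ?_⟩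
  · apply φ.injective
    rw [h5, h3]
  · apply φ.injective
    rw [h5, h4, map_div₀, map_natCast]
    exact (conj_eq hQ h2).2

end basics

/-- If the polynomials have no relations and are independent, all Tate classes are generated by
divisors. -/
theorem tateGenerated_of {κ : Type} [Fintype κ] (p : ℕ) [hpp : Fact p.Prime] (a : ℕ)
    (P : κ → ℤ[X]) (hP : ∀ i, IsWeil p a (P i)) (hirr : ∀ i, Irreducible (P i))
    (hno : ∀ (i : κ) (L : Type) [Field L] [NumberField L] [IsGalois ℚ L] [Fact (P i).Monic]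
      (ψ : L →+* AlgebraicClosure ℚ_[p]), Setup (L := L) p a (P i) → NoRel p a ψ (P i))
    (hind : ∀ i j, i ≠ j → Independent (P i) (P j)) : TateGenerated p a P := by
  classical
  intro n T hT Ω _ _ _ V _ _ F hV m x hx
  set f : ℤ[X] := T * ∏ i, P i with hf
  have hfm : f.Monic := hT.frob.monic.mul (monic_prod_of_monic _ _ fun i _ => (hP i).monic)
  set PQ : ℚ[X] := f.map (Int.castRingHom ℚ) with hPQ
  have hLN : NumberField PQ.SplittingField :=
    { to_charZero := charZero_of_injective_algebraMap (algebraMap ℚ PQ.SplittingField).injective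
      to_finiteDimensional := inferInstance }
  have hsf : IsSplittingField ℚ PQ.SplittingField PQ := Polynomial.IsSplittingField.splittingField PQ
  have hnormal : Normal ℚ PQ.SplittingField := Normal.of_isSplittingField PQ
  have hGal : IsGalois ℚ PQ.SplittingField := ⟨⟩
  have hsplit : (f.map (Int.castRingHom PQ.SplittingField)).Splits := by
    have h1 := SplittingField.splits PQ
    convert h1 using 1
    rw [hPQ, Polynomial.map_map]; congr 1
  have hf0 : f.map (Int.castRingHom PQ.SplittingField) ≠ 0 := (hfm.map _).ne_zero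
  have hTs : (T.map (Int.castRingHom PQ.SplittingField)).Splits :=
    hsplit.of_dvd hf0 (Polynomial.map_dvd _ (dvd_mul_right _ _))
  have hPs : ∀ i, ((P i).map (Int.castRingHom PQ.SplittingField)).Splits := by
    intro i
    refine hsplit.of_dvd hf0 ?_
    exact Polynomial.map_dvd _ (dvd_mul_of_dvd_right
      (Finset.dvd_prod_of_mem _ (Finset.mem_univ i)) _)
  have hTss : ∀ z : PQ.SplittingField, (T.map (Int.castRingHom PQ.SplittingField)).IsRoot z →
      z ≠ 0 ∧ SS (p ^ a) z := by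
    intro z hz
    obtain ⟨φ⟩ : Nonempty (PQ.SplittingField →+* ℂ) := inferInstance
    have h2 : (T.map (Int.castRingHom ℂ)).IsRoot (φ z) := (isRoot_map φ).2 hz
    obtain ⟨t, ht, h3⟩ := hT.root _ h2
    refine ⟨(sym_of ⟨hT.frob.monic, hT.frob.weil⟩ z hz).1, t, ht, ?_⟩
    apply φ.injective
    rw [map_pow, map_pow, h3, map_pow, map_natCast]; push_cast; rfl
  have hfact : ∀ i, Fact (P i).Monic := fun i => ⟨(hP i).monic⟩
  have hset : ∀ i, Setup (L := PQ.SplittingField) p a (P i) := fun i =>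
    setup_of (hP i) (hirr i) (hPs i)
  let ψ : PQ.SplittingField →+* AlgebraicClosure ℚ_[p] :=
    ((IsAlgClosed.lift : PQ.SplittingField →ₐ[ℚ] AlgebraicClosure ℚ_[p]) :
      PQ.SplittingField →+* AlgebraicClosure ℚ_[p])
  refine good_of_balanced (L := PQ.SplittingField) (P := P) (q := p ^ a)
    (pow_ne_zero _ hpp.out.ne_zero) (fun i => (hP i).monic) hPs (fun i => (hset i).sym) ?_ F n T
    hT.frob.monic hTs hTss hV m x hx
  intro R m' s hcard hR hs hprod i π hπ
  right
  exact balanced ψ (fun i => (hP i).monic) (fun i => (hset i).sym) (fun i => hno i _ ψ (hset i))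
    (fun i j hij x y hx hy => flip_of (hP j) (hind i j hij) x y hx hy) R m' s hcard hR hs hprod i π
    hπ

/-- The version for powers. -/
theorem tateGenerated_pow {κ : Type} [Fintype κ] (p : ℕ) [hpp : Fact p.Prime] (a : ℕ)
    (R : κ → ℤ[X]) (e : κ → ℕ) (h : TateGenerated p a R) :
    TateGenerated p a fun i => R i ^ e i := by
  intro n T hT Ω _ _ _ V _ _ F hV m x hx
  refine h (fun i => e i * n i) T hT Ω V F ?_ m x hx
  have h1 : ∏ i, R i ^ (e i * n i) = ∏ i, (R i ^ e i) ^ n i :=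
    Finset.prod_congr rfl fun i _ => by rw [pow_mul]
  rw [h1]
  exact hV

end Pool.Agent.Hx18.PP
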