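import Pool.Agent.W518.DN.Good2

/-!
# Balanced relations imply that every Tate class is generated in degree two
-/

set_option autoImplicit false

open Polynomial NumberField Pool.Agent.W518.TC Pool.Agent.W518.DN

namespace Pool.Agent.Hx18.PP

variable {κ : Type} {q : ℕ} {P : κ → ℤ[X]} {L : Type} [Field L]

/-- If all relations are balanced then every Tate class is generated in degree two. -/
theorem good_of_balanced [Fintype κ] [CharZero L] [Algebra.IsAlgebraic ℚ L] (hq : q ≠ 0)
    (hPm : ∀ i, (P i).Monic)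
    (hPs : ∀ i, ((P i).map (Int.castRingHom L)).Splits)
    (hsym : ∀ i (π : L), ((P i).map (Int.castRingHom L)).IsRoot π →
      π ≠ 0 ∧ ((P i).map (Int.castRingHom L)).IsRoot (q / π)) [DecidableEq L]
    (hbal : ∀ (R : Multiset L) (m s : ℕ), Multiset.card R = 2 * m →
      (∀ π ∈ R, (∃ i, ((P i).map (Int.castRingHom L)).IsRoot π) ∨ (π ≠ 0 ∧ SS q π)) →
      0 < s → R.prod ^ s = ((q : L) ^ m) ^ s → ∀ i (π : L),
        ((P i).map (Int.castRingHom L)).IsRoot π → SS q π ∨ R.count π = R.count (q / π))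
    {Ω : Type*} [Field Ω] [IsAlgClosed Ω] [CharZero Ω]
    {V : Type*} [AddCommGroup V] [Module Ω V] (F : Module.End Ω V) (n : κ → ℕ)
    (T : ℤ[X]) (hTm : T.Monic) (hTs : (T.map (Int.castRingHom L)).Splits)
    (hTss : ∀ z : L, (T.map (Int.castRingHom L)).IsRoot z → z ≠ 0 ∧ SS q z)
    (hV : IsH1 (T * ∏ i, P i ^ n i) V F) (m : ℕ) (x : ExteriorAlgebra Ω V)
    (hx : IsTateClass F q m x) : x ∈ Algebra.adjoin Ω {y | IsTateClass F q 1 y} := by
  classical
  have := hV.fin
  let ψ : L →ₐ[ℚ] Ω := IsAlgClosed.lift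
  have hψinj : Function.Injective ψ := ψ.toRingHom.injective
  have hqΩ : (q : Ω) ≠ 0 := by exact_mod_cast hq
  have hψq : ψ (q : L) = q := map_natCast ψ q
  obtain ⟨b, ν, hν, hνr⟩ := exists_eigenbasis F hV.semisimple
  obtain ⟨hxV, s, hs, hxF⟩ := hx
  rw [hV.charpoly] at hνr
  -- eigenvalues come from `L`
  have heig : ∀ j, ∃ π : L, ((∃ i, ((P i).map (Int.castRingHom L)).IsRoot π) ∨
      (π ≠ 0 ∧ SS q π)) ∧ ψ π = ν j := by
    intro j
    have h1 : ν j ∈ ((T * ∏ i, P i ^ n i).map (Int.castRingHom Ω)).roots := by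
      rw [← hνr]; exact Multiset.mem_map_of_mem _ (Finset.mem_univ j)
    have h2 := (mem_roots'.1 h1).2
    rw [Polynomial.map_mul, IsRoot.def, eval_mul, mul_eq_zero] at h2
    rcases h2 with h2 | h2
    · have h4 : T.map (Int.castRingHom Ω) = (T.map (Int.castRingHom L)).map (ψ : L →+* Ω) := by
        rw [Polynomial.map_map]; congr 1; exact RingHom.ext_int _ _
      have h5 : ν j ∈ ((T.map (Int.castRingHom L)).map (ψ : L →+* Ω)).roots := by
        rw [mem_roots ((hTm.map _).map _).ne_zero, ← h4]; exact h2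
      rw [hTs.roots_map] at h5
      obtain ⟨π, hπ, hπν⟩ := Multiset.mem_map.1 h5
      exact ⟨π, Or.inr (hTss π ((mem_roots (hTm.map _).ne_zero).1 hπ)), hπν⟩
    rw [Polynomial.map_prod, eval_prod, Finset.prod_eq_zero_iff] at h2
    obtain ⟨i, _, hi⟩ := h2
    rw [Polynomial.map_pow, eval_pow] at hi
    have h3 := eq_zero_of_pow_eq_zero hi
    have h4 : (P i).map (Int.castRingHom Ω)
        = ((P i).map (Int.castRingHom L)).map (ψ : L →+* Ω) := by
      rw [Polynomial.map_map]; congr 1; exact RingHom.ext_int _ _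
    have h5 : ν j ∈ (((P i).map (Int.castRingHom L)).map
        (ψ : L →+* Ω)).roots := by
      rw [mem_roots (((hPm i).map _).map _).ne_zero, ← h4]; exact h3
    rw [(hPs i).roots_map] at h5
    obtain ⟨π, hπ, hπν⟩ := Multiset.mem_map.1 h5
    exact ⟨π, Or.inl ⟨i, (mem_roots ((hPm i).map _).ne_zero).1 hπ⟩, hπν⟩
  -- the class is a combination of monomials
  have hspan := tate_span F (Set.range b) b.span_eq (by
    rintro _ ⟨j, rfl⟩; exact ⟨ν j, hν j⟩) (2 * m) s (((q : Ω) ^ m) ^ s) x hxV hxF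
  refine Submodule.span_le (p := Subalgebra.toSubmodule (Algebra.adjoin Ω
    {y | IsTateClass F q 1 y})) |>.2 ?_ hspan
  rintro t ⟨v, μ, hvS, hvF, hμ, rfl⟩
  rw [SetLike.mem_coe, Subalgebra.mem_toSubmodule]
  -- roots in `L`
  have hex : ∀ i, ∃ π : L, ((∃ j, ((P j).map
      (Int.castRingHom L)).IsRoot π) ∨ (π ≠ 0 ∧ SS q π)) ∧ ψ π = μ i := by
    intro i
    obtain ⟨j, hj⟩ := hvS i
    obtain ⟨π, hπ, hπν⟩ := heig j
    refine ⟨π, hπ, ?_⟩
    have h1 := hvF i
    rw [← hj, hν j] at h1
    have h2 := smul_left_injective Ω (b.ne_zero j) h1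
    rw [hπν, h2]
  choose π hπ hπμ using hex
  set R : Multiset L := Finset.univ.val.map π with hRdef
  have hRprod : R.prod ^ s = ((q : L) ^ m) ^ s := by
    apply hψinj
    rw [map_pow, map_pow, map_pow, hψq, ← hμ]
    congr 1
    rw [hRdef, Finset.prod_map_val, map_prod]
    exact Finset.prod_congr rfl fun i _ => hπμ i
  have hRroot : ∀ z ∈ R, (∃ i, ((P i).map (Int.castRingHom L)).IsRoot z) ∨
      (z ≠ 0 ∧ SS q z) := by
    intro z hz
    obtain ⟨i, _, rfl⟩ := Multiset.mem_map.1 hz
    exact hπ i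
  have hRcard : Multiset.card R = 2 * m := by
    rw [hRdef, Multiset.card_map]; simp
  have hbal := hbal R m s hRcard hRroot hs hRprod
  -- the list
  have h1 : mono (Ω := Ω) (List.ofFn v)
      = mono (Ω := Ω) ((List.ofFn fun i => (μ i, v i)).map Prod.snd) := by
    rw [List.map_ofFn]; rfl
  rw [h1]
  have hμ0 : ∀ i, μ i ≠ 0 := by
    intro i
    rw [← hπμ i]
    intro h0
    have h1 : π i = 0 := hψinj (by rw [h0, map_zero])
    rcases hπ i with ⟨j, hj⟩ | ⟨h2, -⟩
    · exact (hsym j _ hj).1 h1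
    · exact h2 h1
  have hcount : ∀ a : L, (List.ofFn μ).count (ψ a) = R.count a := by
    intro a
    have h2 : ((List.ofFn μ : List Ω) : Multiset Ω) = R.map ψ := by
      rw [hRdef, Multiset.map_map]
      rw [show (⇑ψ ∘ π) = μ from funext hπμ]
      simp [Fin.univ_val_map]
    rw [← Multiset.coe_count, h2, Multiset.count_map_eq_count' _ _ hψinj]
  refine mono_mem_adjoin F q hqΩ (2 * m) _ (by simp) (even_two_mul m) ?_ ?_ ?_
  · intro e he
    obtain ⟨i, rfl⟩ := (List.mem_ofFn' _ _).1 he
    exact hvF i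
  · intro e he
    obtain ⟨i, rfl⟩ := (List.mem_ofFn' _ _).1 he
    exact hμ0 i
  · intro a ha hss
    rw [List.map_ofFn]
    change (List.ofFn μ).count a = (List.ofFn μ).count ((q : Ω) / a)
    by_cases hrange : ∃ c : L, ψ c = a
    · obtain ⟨c, rfl⟩ := hrange
      have hqc : (q : Ω) / ψ c = ψ (q / c) := by rw [map_div₀, hψq]
      rw [hqc, hcount, hcount]
      by_cases hc : ∃ i, ((P i).map (Int.castRingHom L)).IsRoot c
      · obtain ⟨i, hi⟩ := hc
        rcases hbal i c hi with h2 | h2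
        · exfalso
          apply hss
          obtain ⟨t, ht, h3⟩ := h2
          refine ⟨t, ht, ?_⟩
          have := congrArg ψ h3
          rwa [map_pow, map_pow, map_pow, hψq] at this
        · exact h2
      · have hq0 : (q : L) ≠ 0 := by exact_mod_cast hq
        have hc0 : c ≠ 0 := by rintro rfl; exact ha (map_zero ψ)
        have hss' : ¬ SS q c := by
          rintro ⟨t, ht, h3⟩
          apply hss
          refine ⟨t, ht, ?_⟩
          have := congrArg ψ h3
          rwa [map_pow, map_pow, map_pow, hψq] at this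
        have h2 : c ∉ R := by
          intro h
          rcases hRroot c h with h3 | ⟨-, h3⟩
          · exact hc h3
          · exact hss' h3
        have h3 : (q : L) / c ∉ R := by
          intro h
          rcases hRroot _ h with ⟨i, hi⟩ | ⟨-, h3⟩
          · apply hc
            have h4 := (hsym i _ hi).2
            rw [div_div_cancel₀ hq0] at h4
            exact ⟨i, h4⟩
          · exact hss' (SS.of_div hq0 hc0 h3)
        rw [Multiset.count_eq_zero_of_notMem h2, Multiset.count_eq_zero_of_notMem h3]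
    · have h2 : a ∉ List.ofFn μ := by
        intro h
        obtain ⟨i, rfl⟩ := (List.mem_ofFn' _ _).1 h
        exact hrange ⟨π i, hπμ i⟩
      have h3 : (q : Ω) / a ∉ List.ofFn μ := by
        intro h
        obtain ⟨i, hi⟩ := (List.mem_ofFn' _ _).1 h
        apply hrange
        refine ⟨q / π i, ?_⟩
        rw [map_div₀, hψq, hπμ i, hi, div_div_cancel₀ hqΩ]
      rw [List.count_eq_zero_of_not_mem h2, List.count_eq_zero_of_not_mem h3]

end Pool.Agent.Hx18.PP
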