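import Pool.Agent.Hx18.PP.Nor

/-!
# One dominating slope
-/

set_option autoImplicit false

open Polynomial NumberField Pool.Agent.W518.TC Pool.Agent.W518.DN

namespace Pool.Agent.Hx18.PP

section special

/-- One pair of exceptional elements. -/
theorem exists_special {X : Type} [Fintype X] [DecidableEq X] {g : ℕ} (Mj : Fin g → ℤ) (M : X → ℤ)
    (ι : X → X) (hModd : ∀ x, M (ι x) = - M x) (hfix : ∀ x, ι x ≠ x) (e : ℕ)
    (hMe : e • (Finset.univ.val.map M) =
      Finset.univ.val.map Mj + Finset.univ.val.map fun j => - Mj j)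
    (q : ℤ → Prop) [DecidablePred q] (hq : ∀ n, q (-n) ↔ q n) (j0 : Fin g) (hj0 : q (Mj j0))
    (hj : ∀ j, j ≠ j0 → ¬ q (Mj j)) :
    e = 1 ∧ ∃ x0, q (M x0) ∧ ∀ x, x ≠ x0 → x ≠ ι x0 → ¬ q (M x) := by
  have h1 := congrArg (Multiset.countP q) hMe
  have hone : ∀ f : Fin g → ℤ, (∀ j, q (f j) ↔ q (Mj j)) →
      Multiset.countP q (Finset.univ.val.map f) = 1 := by
    intro f hf
    rw [Multiset.countP_map]
    have h2 : (Finset.univ.val.filter fun j => q (f j)) =
        (Finset.univ.filter fun j => q (f j)).val := rfl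
    rw [h2, Finset.card_val]
    have h3 : (Finset.univ.filter fun j => q (f j)) = {j0} := by
      ext j
      simp only [Finset.mem_filter, Finset.mem_univ, true_and, Finset.mem_singleton]
      rw [hf]
      constructor
      · intro h
        by_contra hne
        exact hj j hne h
      · rintro rfl
        exact hj0
    rw [h3, Finset.card_singleton]
  rw [Multiset.countP_nsmul, Multiset.countP_add, hone _ fun j => Iff.rfl, hone _ fun j => hq _,
    Multiset.countP_map] at h1
  have h2 : (Finset.univ.val.filter fun x => q (M x)) =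
      (Finset.univ.filter fun x => q (M x)).val := rfl
  rw [h2, Finset.card_val] at h1
  obtain ⟨x0, hx0⟩ : ∃ x0, q (M x0) := by
    by_contra hcon
    push Not at hcon
    rw [Finset.filter_false_of_mem fun x _ => hcon x] at h1
    simp at h1
  have hsub : ({x0, ι x0} : Finset X) ⊆ Finset.univ.filter fun x => q (M x) := by
    intro x hx
    rw [Finset.mem_insert, Finset.mem_singleton] at hx
    rw [Finset.mem_filter]
    refine ⟨Finset.mem_univ _, ?_⟩
    rcases hx with rfl | rfl
    · exact hx0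
    · rw [hModd, hq]; exact hx0
  have hcard2 : ({x0, ι x0} : Finset X).card = 2 := Finset.card_pair (hfix x0).symm
  have h3 := Finset.card_le_card hsub
  rw [hcard2] at h3
  have he : e = 1 := by
    have he0 : e ≠ 0 := by
      rintro rfl
      simp at h1
    by_contra hne
    have h4 : 2 ≤ e := by omega
    have h5 : 2 * 2 ≤ e * (Finset.univ.filter fun x => q (M x)).card := Nat.mul_le_mul h4 h3
    omega
  refine ⟨he, x0, hx0, ?_⟩
  intro x h4 h5 h6
  rw [he, one_mul] at h1
  have h7 := Finset.eq_of_subset_of_card_le hsub (by rw [hcard2, h1])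
  have h8 : x ∈ ({x0, ι x0} : Finset X) := by
    rw [h7]
    exact Finset.mem_filter.2 ⟨Finset.mem_univ _, h6⟩
  rw [Finset.mem_insert, Finset.mem_singleton] at h8
  exact h8.elim h4 h5

end special

section slopes

variable {p : ℕ} [hpp : Fact p.Prime] {a : ℕ} {L : Type} [Field L] [NumberField L]
  (ψ : L →+* AlgebraicClosure ℚ_[p]) {P : ℤ[X]} {g : ℕ} {s : Fin g → ℚ}

variable [hmf : Fact P.Monic] (hS : Setup (L := L) p a P)
include hS

/-- The involution has no fixed points. -/
theorem inv_ne {Mj : Fin g → ℤ} {M : Rt L P → ℤ} (hModd : ∀ x, M (inv hS x) = - M x) {e : ℕ}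
    (hMe : e • (Finset.univ.val.map M) =
      Finset.univ.val.map Mj + Finset.univ.val.map fun j => - Mj j)
    {j0 : Fin g} (hj0 : Mj j0 ≠ 0) : ∀ x, inv hS x ≠ x := by
  intro x hx
  have h1 : ∀ y, M y = 0 := by
    intro y
    obtain ⟨σ, rfl⟩ := hS.conj x y
    have h2 := hModd (σ • x)
    rw [inv_smul, hx] at h2
    linarith
  apply hj0
  have h3 : Mj j0 ∈ e • (Finset.univ.val.map M) := by
    rw [hMe, Multiset.mem_add]
    left
    exact Multiset.mem_map_of_mem _ (Finset.mem_univ j0)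
  have h4 := Multiset.mem_of_mem_nsmul h3
  obtain ⟨y, -, hy⟩ := Multiset.mem_map.1 h4
  rw [← hy, h1]

/-- Exactly one of the integral weights is not divisible by the prime number `l`. -/
theorem noRel_single (ha : 0 < a) (hsl : HasSlopes p a s P) {c : ℚ} (hc : c ≠ 0)
    {Mj : Fin g → ℤ} (hM : ∀ j, 1 - 2 * s j = c * Mj j) {l : ℕ} (hl : l.Prime) (j0 : Fin g)
    (hj0 : ¬ (l : ℤ) ∣ Mj j0) (hj : ∀ j, j ≠ j0 → (l : ℤ) ∣ Mj j) :
    NoRel p a ψ P := by
  classical
  have := Fact.mk hl
  obtain ⟨M, hMx, hModd, hMm, hrelM⟩ := exists_weights ψ hS ha hsl hc hM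
  intro m hm hrel
  by_cases hne : Nonempty (Rt L P)
  swap
  · funext x; exact absurd ⟨x⟩ hne
  obtain ⟨x1⟩ := hne
  set e := (P.map (Int.castRingHom L)).roots.count x1.1 with he
  have hcount : ∀ x : Rt L P, (P.map (Int.castRingHom L)).roots.count x.1 = e := by
    intro x
    obtain ⟨σ, rfl⟩ := hS.conj x1 x
    exact mult_eq σ x1.1
  have hMe := hMm e hcount
  have hfix := inv_ne hS hModd hMe (j0 := j0) (fun h => hj0 (by rw [h]; exact dvd_zero _))
  obtain ⟨-, x0, h0, h1⟩ := exists_special Mj M (inv hS) hModd hfix e hMe (fun n => ¬ (l : ℤ) ∣ n)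
    (fun n => not_congr (dvd_neg)) j0 hj0 (fun j hne => not_not.2 (hj j hne))
  refine rel_zero (Γ := L ≃ₐ[ℚ] L) (inv hS) (inv_inv hS) (fun γ x => inv_smul hS γ x) hfix hS.conj M
    hModd l 0 {x0, inv hS x0} ⟨x0, Or.inl rfl⟩ ?_ ?_ ?_ ?_ ?_ m
    (fun x => hm x (inv hS x) rfl) (hrelM m hrel)
  · rintro x (rfl | hx)
    · exact Or.inr rfl
    · rw [Set.mem_singleton_iff] at hx
      rw [hx, inv_inv]
      exact Or.inl rfl
  · intro γ x hx hγx
    have h2 : ∀ z, z ∈ ({x0, inv hS x0} : Set (Rt L P)) → inv hS z ∈ ({x0, inv hS x0} :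
        Set (Rt L P)) := by
      rintro z (rfl | hz)
      · exact Or.inr rfl
      · rw [Set.mem_singleton_iff] at hz
        rw [hz, inv_inv]
        exact Or.inl rfl
    have h3 : γ • x0 ∈ ({x0, inv hS x0} : Set (Rt L P)) := by
      rcases hx with rfl | hx
      · exact hγx
      · rw [Set.mem_singleton_iff] at hx
        have h4 := h2 _ hγx
        rw [hx, inv_smul, inv_inv] at h4
        exact h4
    rintro y (rfl | hy)
    · exact h3
    · rw [Set.mem_singleton_iff] at hy
      have h4 := h2 _ h3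
      rw [hy]
      rw [inv_smul] at h4
      exact h4
  · rw [Set.ncard_pair (hfix x0).symm]; simp
  · intro x hx
    by_contra hcon
    refine h1 x (fun h => hx (Or.inl h)) (fun h => hx (Or.inr h)) hcon
  · intro T hT1 hT2 _ hdvd
    have h2 : T = {x0} ∨ T = {inv hS x0} := by
      rcases hT2 x0 (Or.inl rfl) with h | h
      · left
        ext x
        rw [Finset.mem_singleton]
        constructor
        · intro hx
          rcases (hT1 x hx).1 with h3 | h3
          · exact h3
          · rw [Set.mem_singleton_iff] at h3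
            exact absurd (by rw [← h3]; exact hx) (hT1 x0 h).2
        · rintro rfl; exact h
      · right
        ext x
        rw [Finset.mem_singleton]
        constructor
        · intro hx
          rcases (hT1 x hx).1 with h3 | h3
          · exact absurd (by rw [h3]; exact h) (hT1 x hx).2
          · exact h3
        · rintro rfl; exact h
    rcases h2 with h2 | h2
    · rw [h2, Finset.sum_singleton] at hdvd
      exact h0 hdvd
    · rw [h2, Finset.sum_singleton, hModd, dvd_neg] at hdvd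
      exact h0 hdvd

/-- Exactly one of the integral weights is even, and the number of the pairs is even. -/
theorem noRel_butOne (ha : 0 < a) (hsl : HasSlopes p a s P) {c : ℚ} (hc : c ≠ 0)
    {Mj : Fin g → ℤ} (hM : ∀ j, 1 - 2 * s j = c * Mj j) (hg : Even g) (j0 : Fin g)
    (hj0 : (2 : ℤ) ∣ Mj j0) (hj : ∀ j, j ≠ j0 → ¬ (2 : ℤ) ∣ Mj j) :
    NoRel p a ψ P := by
  classical
  obtain ⟨M, hMx, hModd, hMm, hrelM⟩ := exists_weights ψ hS ha hsl hc hM
  intro m hm hrel
  by_cases hne : Nonempty (Rt L P)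
  swap
  · funext x; exact absurd ⟨x⟩ hne
  obtain ⟨x1⟩ := hne
  set e := (P.map (Int.castRingHom L)).roots.count x1.1 with he
  have hcount : ∀ x : Rt L P, (P.map (Int.castRingHom L)).roots.count x.1 = e := by
    intro x
    obtain ⟨σ, rfl⟩ := hS.conj x1 x
    exact mult_eq σ x1.1
  have hMe := hMm e hcount
  obtain ⟨j1, hj1⟩ : ∃ j1, j1 ≠ j0 := by
    by_contra hcon
    push Not at hcon
    have h1 : Fintype.card (Fin g) = 1 := Fintype.card_eq_one_iff.2 ⟨j0, hcon⟩
    rw [Fintype.card_fin] at h1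
    rw [h1] at hg
    exact absurd hg (by decide)
  have hfix := inv_ne hS hModd hMe (j0 := j1) (fun h => hj j1 hj1 (by rw [h]; exact dvd_zero _))
  obtain ⟨he1, x0, h0, h1⟩ := exists_special Mj M (inv hS) hModd hfix e hMe (fun n => (2 : ℤ) ∣ n)
    (fun n => dvd_neg) j0 hj0 hj
  have hcX : Fintype.card (Rt L P) = 2 * g := by
    have h2 := congrArg Multiset.card hMe
    rw [he1, one_nsmul, Multiset.card_map, Multiset.card_add, Multiset.card_map,
      Multiset.card_map] at h2
    rw [← Finset.card_univ]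
    change Multiset.card (Finset.univ : Finset (Rt L P)).val = _
    rw [h2]
    change Fintype.card (Fin g) + Fintype.card (Fin g) = _
    rw [Fintype.card_fin]; ring
  exact rel_zero_but_one (Γ := L ≃ₐ[ℚ] L) (inv hS) (inv_inv hS) (fun γ x => inv_smul hS γ x) hfix
    hS.conj M hModd g hg hcX x0 h0 h1 m (fun x => hm x (inv hS x) rfl) (hrelM m hrel)

/-- One of the weights is larger than the sum of the others. -/
theorem noRel_dom (ha : 0 < a) (hsl : HasSlopes p a s P) (j0 : Fin g)
    (hj0 : ∑ j ∈ Finset.univ.erase j0, |1 - 2 * s j| < |1 - 2 * s j0|) :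
    NoRel p a ψ P := by
  classical
  intro m hm hrel
  set w : Rt L P → ℝ := fun x => wt p a ψ x.1 with hw
  have hwodd : ∀ x, w (inv hS x) = - w x := fun x => wt_inv ψ hS x
  have haR : (0 : ℝ) < a := by exact_mod_cast ha
  -- the element with the large weight
  have h1 := weights ψ hmf.out hS.split hsl
  have h2 : (a : ℝ) * (1 - 2 * (s j0 : ℝ)) ∈ (P.map (Int.castRingHom L)).roots.map (wt p a ψ) := by
    rw [h1, Multiset.mem_add]
    left
    exact Multiset.mem_map_of_mem (fun j => (a : ℝ) * (1 - 2 * (s j : ℝ))) (Finset.mem_univ j0)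
  obtain ⟨x0', hx0', hwx0⟩ := Multiset.mem_map.1 h2
  have hx0r := (mem_roots (hmf.out.map _).ne_zero).1 hx0'
  set x0 : Rt L P := ⟨x0', hx0r⟩ with hx0
  have hwx0' : w x0 = (a : ℝ) * (1 - 2 * (s j0 : ℝ)) := hwx0
  set e := (P.map (Int.castRingHom L)).roots.count x0.1 with he
  have he1 : 1 ≤ e := Multiset.one_le_count_iff_mem.2 hx0'
  rw [roots_eq hS x0, ← he, Multiset.map_nsmul, Multiset.map_map] at h1
  have h3 := congrArg (fun S : Multiset ℝ => (S.map fun r => |r|).sum) h1
  simp only [Multiset.map_nsmul, Multiset.sum_nsmul, Multiset.map_add, Multiset.sum_add,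
    Multiset.map_map] at h3
  have h4 : (Finset.univ.val.map ((fun r : ℝ => |r|) ∘ (wt p a ψ ∘ fun x : Rt L P => x.1))).sum =
      ∑ x : Rt L P, |w x| := rfl
  have h5 : (Finset.univ.val.map ((fun r : ℝ => |r|) ∘ fun j => (a : ℝ) * (1 - 2 * (s j : ℝ)))).sum =
      ∑ j, |(a : ℝ) * (1 - 2 * (s j : ℝ))| := rfl
  have h6 : (Finset.univ.val.map ((fun r : ℝ => |r|) ∘
      fun j => -((a : ℝ) * (1 - 2 * (s j : ℝ))))).sum =
      ∑ j, |-((a : ℝ) * (1 - 2 * (s j : ℝ)))| := rfl
  rw [h4, h5, h6] at h3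
  simp only [abs_neg] at h3
  have h7 : ∑ j, |(a : ℝ) * (1 - 2 * (s j : ℝ))| < 2 * |w x0| := by
    have h8 : (∑ j ∈ Finset.univ.erase j0, |1 - 2 * (s j : ℝ)|) < |1 - 2 * (s j0 : ℝ)| := by
      exact_mod_cast hj0
    have h9 : ∑ j, |(a : ℝ) * (1 - 2 * (s j : ℝ))| = a * ∑ j, |1 - 2 * (s j : ℝ)| := by
      rw [Finset.mul_sum]
      refine Finset.sum_congr rfl fun j _ => ?_
      rw [abs_mul, abs_of_pos haR]
    rw [h9, hwx0', abs_mul, abs_of_pos haR, ← Finset.add_sum_erase _ _ (Finset.mem_univ j0)]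
    nlinarith
  have hwpos : 0 < |w x0| := by
    have : 0 ≤ ∑ j, |(a : ℝ) * (1 - 2 * (s j : ℝ))| := Finset.sum_nonneg fun _ _ => abs_nonneg _
    linarith
  have hne0 : inv hS x0 ≠ x0 := by
    intro h
    have h8 := hwodd x0
    rw [h] at h8
    have h9 : w x0 = 0 := by linarith
    rw [h9] at hwpos
    simp at hwpos
  have h8 : ∑ x : Rt L P, |w x| = |w x0| + |w x0| +
      ∑ x ∈ Finset.univ.filter (fun x => x ≠ x0 ∧ x ≠ inv hS x0), |w x| := by
    rw [← Finset.add_sum_erase _ _ (Finset.mem_univ x0),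
      ← Finset.add_sum_erase _ _ (Finset.mem_erase.2 ⟨hne0, Finset.mem_univ _⟩), hwodd, abs_neg,
      add_assoc]
    congr 2
    refine Finset.sum_congr ?_ fun _ _ => rfl
    ext x
    simp only [Finset.mem_erase, Finset.mem_univ, and_true, Finset.mem_filter, true_and]
    tauto
  have h10 : ∑ x : Rt L P, |w x| ≤ e • ∑ x : Rt L P, |w x| := by
    rw [nsmul_eq_mul]
    have h11 : (1 : ℝ) ≤ e := by exact_mod_cast he1
    have h12 : 0 ≤ ∑ x : Rt L P, |w x| := Finset.sum_nonneg fun _ _ => abs_nonneg _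
    nlinarith
  have h9 := rel_zero_dom (Γ := L ≃ₐ[ℚ] L) (inv hS) (fun γ x => inv_smul hS γ x) hS.conj w hwodd x0
    (by linarith) (fun x => (m x : ℝ)) (fun x => by
      change ((m (inv hS x) : ℤ) : ℝ) = _
      rw [hm x (inv hS x) rfl]; push_cast; rfl) (by
      intro γ
      have h11 := hrel γ⁻¹
      rw [← h11]
      refine (Fintype.sum_bijective (fun x : Rt L P => γ • x) (MulAction.bijective γ) _ _ ?_)
      intro x
      change (m (γ • x) : ℝ) * wt p a ψ x.1 = (m (γ • x) : ℝ) * wt p a ψ (γ⁻¹ (γ x.1))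
      congr 2
      exact (γ.symm_apply_apply x.1).symm)
  funext x
  have h11 := congrFun h9 x
  simp only [Pi.zero_apply] at h11
  exact_mod_cast h11

end slopes

end Pool.Agent.Hx18.PP
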