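import Pool.Agent.Hx18.PP.Syl

/-!
# Relations and dominant weights, decoupling of blocks
-/

set_option autoImplicit false

namespace Pool.Agent.Hx18.PP

open MulAction Pointwise

section main

variable {Γ X : Type} [Group Γ] [Finite Γ] [Fintype X] [MulAction Γ X]

omit [Finite Γ] in
/-- A weight that is larger than the sum of the other ones. -/
theorem rel_zero_dom (ι : X → X) (hιs : ∀ (γ : Γ) x, ι (γ • x) = γ • ι x)
    (htr : ∀ x y : X, ∃ γ : Γ, γ • x = y)
    (w : X → ℝ) (hw : ∀ x, w (ι x) = -w x) (x0 : X) [DecidableEq X]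
    (hdom : ∑ x ∈ Finset.univ.filter (fun x => x ≠ x0 ∧ x ≠ ι x0), |w x| < 2 * |w x0|)
    (m : X → ℝ) (hm : ∀ x, m (ι x) = - m x) (hrel : ∀ γ : Γ, ∑ x, m (γ • x) * w x = 0) :
    m = 0 := by
  classical
  have hw0 : 0 < |w x0| := by
    have h1 : 0 ≤ ∑ x ∈ Finset.univ.filter (fun x => x ≠ x0 ∧ x ≠ ι x0), |w x| :=
      Finset.sum_nonneg fun x _ => abs_nonneg _
    linarith
  have hfix0 : ι x0 ≠ x0 := by
    intro h
    have h1 := hw x0
    rw [h] at h1
    have h2 : w x0 = 0 := by linarith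
    rw [h2] at hw0
    simp at hw0
  obtain ⟨x1, -, hx1⟩ := Finset.exists_max_image Finset.univ (fun x => |m x|) ⟨x0, Finset.mem_univ _⟩
  obtain ⟨γ, hγ⟩ := htr x0 x1
  have h1 := hrel γ
  have h2 : ∑ x, m (γ • x) * w x = 2 * (m x1 * w x0) +
      ∑ x ∈ Finset.univ.filter (fun x => x ≠ x0 ∧ x ≠ ι x0), m (γ • x) * w x := by
    rw [← Finset.sum_filter_add_sum_filter_not Finset.univ (fun x => x ≠ x0 ∧ x ≠ ι x0), add_comm]
    congr 1
    have h3 : Finset.univ.filter (fun x => ¬ (x ≠ x0 ∧ x ≠ ι x0)) = {x0, ι x0} := by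
      ext x
      simp only [Finset.mem_filter, Finset.mem_univ, true_and, Finset.mem_insert,
        Finset.mem_singleton]
      tauto
    rw [h3, Finset.sum_pair hfix0.symm, ← hιs, hm, hw, hγ]
    ring
  rw [h2] at h1
  have h3 : 2 * (|m x1| * |w x0|) ≤ |m x1| *
      ∑ x ∈ Finset.univ.filter (fun x => x ≠ x0 ∧ x ≠ ι x0), |w x| := by
    have h4 : 2 * (m x1 * w x0) =
      -∑ x ∈ Finset.univ.filter (fun x => x ≠ x0 ∧ x ≠ ι x0), m (γ • x) * w x := by linarith
    have h5 : 2 * (|m x1| * |w x0|) = |2 * (m x1 * w x0)| := by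
      rw [abs_mul, abs_mul]; norm_num
    rw [h5, h4, abs_neg, Finset.mul_sum]
    refine (Finset.abs_sum_le_sum_abs _ _).trans (Finset.sum_le_sum fun x _ => ?_)
    rw [abs_mul]
    exact mul_le_mul_of_nonneg_right (hx1 _ (Finset.mem_univ _)) (abs_nonneg _)
  have h6 : |m x1| = 0 := by
    by_contra hne
    have hpos : 0 < |m x1| := lt_of_le_of_ne (abs_nonneg _) (Ne.symm hne)
    have h7 := mul_lt_mul_of_pos_left hdom hpos
    linarith
  funext x
  have h7 := hx1 x (Finset.mem_univ _)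
  rw [h6] at h7
  exact abs_eq_zero.1 (le_antisymm h7 (abs_nonneg _))

/-- All weights but those of one pair are odd, and the number of pairs is even. -/
theorem rel_zero_but_one (ι : X → X) (hι : ∀ x, ι (ι x) = x)
    (hιs : ∀ (γ : Γ) x, ι (γ • x) = γ • ι x)
    (hfix : ∀ x, ι x ≠ x) (htr : ∀ x y : X, ∃ γ : Γ, γ • x = y)
    (M : X → ℤ) (hM : ∀ x, M (ι x) = -M x) (g : ℕ) (hg : Even g) (hcard : Fintype.card X = 2 * g)
    (x0 : X) (h0 : (2 : ℤ) ∣ M x0) (h1 : ∀ x, x ≠ x0 → x ≠ ι x0 → ¬ (2 : ℤ) ∣ M x)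
    (m : X → ℤ) (hm : ∀ x, m (ι x) = - m x) (hrel : ∀ γ : Γ, ∑ x, m (γ • x) * M x = 0) :
    m = 0 := by
  classical
  by_contra hm0
  obtain ⟨m', hmm', hgcd⟩ := Finset.extract_gcd (s := Finset.univ) m ⟨x0, Finset.mem_univ _⟩
  set d := Finset.univ.gcd m with hd
  have hd0 : d ≠ 0 := by
    intro h
    apply hm0
    funext x
    rw [hmm' x (Finset.mem_univ _), h, zero_mul]; rfl
  have hm' : ∀ x, m' (ι x) = - m' x := by
    intro x
    have h1 := hm x
    rw [hmm' _ (Finset.mem_univ _), hmm' x (Finset.mem_univ _)] at h1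
    have h2 : d * m' (ι x) = d * (- m' x) := by rw [h1]; ring
    exact mul_left_cancel₀ hd0 h2
  have hrel' : ∀ γ : Γ, ∑ x, m' (γ • x) * M x = 0 := by
    intro γ
    have h1 := hrel γ
    have h2 : ∑ x, m (γ • x) * M x = d * ∑ x, m' (γ • x) * M x := by
      rw [Finset.mul_sum]
      refine Finset.sum_congr rfl fun x _ => ?_
      rw [hmm' _ (Finset.mem_univ _)]; ring
    rw [h2] at h1
    exact (mul_eq_zero.1 h1).resolve_left hd0
  obtain ⟨x1, hx1⟩ : ∃ x, ¬ (2 : ℤ) ∣ m' x := by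
    by_contra hcon
    push Not at hcon
    have h1 : (2 : ℤ) ∣ Finset.univ.gcd m' := Finset.dvd_gcd fun x _ => hcon x
    rw [hgcd] at h1
    norm_num at h1
  -- a transversal
  obtain ⟨e⟩ : Nonempty (X ≃ Fin (Fintype.card X)) := ⟨Fintype.equivFin X⟩
  let TX : Finset X := Finset.univ.filter fun x => e x < e (ι x)
  have hTX1 : ∀ x ∈ TX, ι x ∉ TX := by
    intro x hx hx'
    simp only [TX, Finset.mem_filter, Finset.mem_univ, true_and] at hx hx'
    rw [hι] at hx'
    exact lt_asymm hx hx'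
  have hTX2 : ∀ x, x ∈ TX ∨ ι x ∈ TX := by
    intro x
    simp only [TX, Finset.mem_filter, Finset.mem_univ, true_and, hι]
    exact lt_or_gt_of_ne fun h => hfix x (e.injective h).symm
  have hιinj : Function.Injective ι := fun x y h => by
    have := congrArg ι h
    rwa [hι, hι] at this
  have hU : (Finset.univ : Finset X) = TX ∪ TX.image ι := by
    ext x
    simp only [Finset.mem_univ, Finset.mem_union, Finset.mem_image, true_iff]
    rcases hTX2 x with h | h
    · left; exact h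
    · right; exact ⟨ι x, h, hι x⟩
  have hdisj : Disjoint TX (TX.image ι) := by
    rw [Finset.disjoint_left]
    intro x hx hx'
    obtain ⟨y, hy, rfl⟩ := Finset.mem_image.1 hx'
    exact hTX1 y hy hx
  have hhalf : ∀ F : X → ℤ, (∀ x, F (ι x) = F x) → ∑ x, F x = 2 * ∑ x ∈ TX, F x := by
    intro F hF
    rw [hU, Finset.sum_union hdisj, Finset.sum_image (fun x _ y _ h => hιinj h),
      Finset.sum_congr rfl fun x _ => hF x]
    ring
  have hcT : TX.card = g := by
    have h1 : Fintype.card X = 2 * TX.card := by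
      rw [← Finset.card_univ, hU, Finset.card_union_of_disjoint hdisj,
        Finset.card_image_of_injective _ hιinj]
      ring
    omega
  have hpar : ∀ x, ((m' (ι x) : ℤ) : ZMod 2) = ((m' x : ℤ) : ZMod 2) := by
    intro x
    rw [hm']; push_cast
    exact ZMod.neg_eq_self_mod_two _
  -- the sum over a transversal does not depend on the transversal
  have hsum : ∀ γ : Γ, ∑ x ∈ TX, ((m' (γ • x) : ℤ) : ZMod 2) = ∑ x ∈ TX, ((m' x : ℤ) : ZMod 2) := by
    intro γ
    let ρ : X → X := fun x => if γ • x ∈ TX then γ • x else ι (γ • x)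
    refine Finset.sum_bij (fun x _ => ρ x) ?_ ?_ ?_ ?_
    · intro x hx
      simp only [ρ]
      split_ifs with h
      · exact h
      · exact (hTX2 _).resolve_left h
    · intro x hx y hy hxy
      simp only [ρ] at hxy
      split_ifs at hxy with h2 h3 h3
      · exact MulAction.injective γ hxy
      · exfalso
        rw [hιs] at hxy
        have h4 := MulAction.injective γ hxy
        rw [h4] at hx
        exact hTX1 y hy hx
      · exfalso
        rw [hιs] at hxy
        have h4 := MulAction.injective γ hxy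
        rw [← h4] at hy
        exact hTX1 x hx hy
      · exact MulAction.injective γ (hιinj hxy)
    · intro y hy
      rcases hTX2 (γ⁻¹ • y) with h | h
      · refine ⟨γ⁻¹ • y, h, ?_⟩
        simp only [ρ, smul_inv_smul, if_pos hy]
      · refine ⟨ι (γ⁻¹ • y), h, ?_⟩
        simp only [ρ]
        rw [← hιs, smul_inv_smul, if_neg (fun h => hTX1 _ hy h), hι]
    · intro x hx
      simp only [ρ]
      split_ifs
      · rfl
      · exact (hpar _).symm
  set S : ZMod 2 := ∑ x ∈ TX, ((m' x : ℤ) : ZMod 2) with hS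
  have hone : ∀ z : ℤ, ¬ (2 : ℤ) ∣ z → ((z : ℤ) : ZMod 2) = 1 := by
    intro z hz
    have h1 : ((z : ℤ) : ZMod 2) ≠ 0 := by
      intro h
      exact hz ((ZMod.intCast_zmod_eq_zero_iff_dvd z 2).1 h)
    revert h1
    generalize ((z : ℤ) : ZMod 2) = t
    decide +revert
  obtain ⟨x0', hx0', hx0T⟩ : ∃ x0', (x0' = x0 ∨ x0' = ι x0) ∧ x0' ∈ TX := by
    rcases hTX2 x0 with h | h
    · exact ⟨x0, Or.inl rfl, h⟩
    · exact ⟨ι x0, Or.inr rfl, h⟩
  have hconst : ∀ γ : Γ, ((m' (γ • x0) : ℤ) : ZMod 2) = S := by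
    intro γ
    have h2 : ∑ x ∈ TX, m' (γ • x) * M x = 0 := by
      have h3 := hhalf (fun x => m' (γ • x) * M x) (by
        intro x
        change m' (γ • ι x) * M (ι x) = m' (γ • x) * M x
        rw [← hιs, hm', hM]; ring)
      rw [hrel'] at h3
      linarith
    have h3 : ∑ x ∈ TX, ((m' (γ • x) : ℤ) : ZMod 2) * ((M x : ℤ) : ZMod 2) = 0 := by
      have := congrArg (fun z : ℤ => (z : ZMod 2)) h2
      push_cast at this
      exact this
    have h4 : ∀ x ∈ TX, ((m' (γ • x) : ℤ) : ZMod 2) * ((M x : ℤ) : ZMod 2) =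
        ((m' (γ • x) : ℤ) : ZMod 2) - if x = x0' then ((m' (γ • x) : ℤ) : ZMod 2) else 0 := by
      intro x hx
      by_cases hxx : x = x0'
      · rw [if_pos hxx, sub_self]
        have h5 : ((M x : ℤ) : ZMod 2) = 0 := by
          rw [ZMod.intCast_zmod_eq_zero_iff_dvd]
          rw [hxx]
          rcases hx0' with rfl | rfl
          · exact h0
          · rw [hM]; exact (dvd_neg.2 h0)
        rw [h5, mul_zero]
      · rw [if_neg hxx, sub_zero]
        have h5 : x ≠ x0 := by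
          rintro rfl
          rcases hx0' with rfl | rfl
          · exact hxx rfl
          · exact hTX1 _ hx hx0T
        have h6 : x ≠ ι x0 := by
          rintro rfl
          rcases hx0' with rfl | rfl
          · exact hTX1 _ hx0T hx
          · exact hxx rfl
        rw [hone _ (h1 x h5 h6), mul_one]
    rw [Finset.sum_congr rfl h4, Finset.sum_sub_distrib, Finset.sum_ite_eq' TX x0', if_pos hx0T,
      hsum γ, sub_eq_zero] at h3
    rw [h3]
    rcases hx0' with rfl | rfl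
    · rfl
    · rw [← hιs, hpar]
  have hall : ∀ x, ((m' x : ℤ) : ZMod 2) = S := by
    intro x
    obtain ⟨γ, rfl⟩ := htr x0 x
    exact hconst γ
  have hS0 : S = 0 := by
    rw [hS, Finset.sum_congr rfl fun x _ => hall x, Finset.sum_const, hcT, nsmul_eq_mul]
    obtain ⟨r, rfl⟩ := hg
    have : ((r + r : ℕ) : ZMod 2) = 0 := by
      rw [ZMod.natCast_eq_zero_iff]
      exact ⟨r, by ring⟩
    rw [this, zero_mul]
  apply hx1
  have := hall x1
  rw [hS0] at this
  exact (ZMod.intCast_zmod_eq_zero_iff_dvd _ 2).1 this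

end main

section orth

variable {Γ A : Type} [Group Γ] [Fintype Γ] [MulAction Γ A]

/-- Blocks of weights that can be flipped independently: a relation is a sum of relations. -/
theorem decouple (w : A → ℝ) (m : A → ℝ) (S T : Finset A)
    (hflip : ∀ x ∈ S, ∀ y ∈ T, ∃ τ : Γ, ∀ σ : Γ, w ((σ * τ) • x) * w ((σ * τ) • y) =
      - (w (σ • x) * w (σ • y)))
    (h : ∀ σ : Γ, ∑ x ∈ S, m x * w (σ • x) + ∑ y ∈ T, m y * w (σ • y) = 0) (σ : Γ) :
    ∑ x ∈ S, m x * w (σ • x) = 0 := by
  have h1 : ∀ x ∈ S, ∀ y ∈ T, ∑ σ : Γ, w (σ • x) * w (σ • y) = 0 := by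
    intro x hx y hy
    obtain ⟨τ, hτ⟩ := hflip x hx y hy
    have h2 : ∑ σ : Γ, w (σ • x) * w (σ • y) = ∑ σ : Γ, w ((σ * τ) • x) * w ((σ * τ) • y) :=
      (Equiv.sum_comp (Equiv.mulRight τ) fun σ => w (σ • x) * w (σ • y)).symm
    rw [Finset.sum_congr rfl fun σ _ => hτ σ, Finset.sum_neg_distrib] at h2
    linarith
  have h2 : ∑ σ : Γ, (∑ x ∈ S, m x * w (σ • x)) * (∑ y ∈ T, m y * w (σ • y)) = 0 := by
    have h3 : ∀ σ : Γ, (∑ x ∈ S, m x * w (σ • x)) * (∑ y ∈ T, m y * w (σ • y)) =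
        ∑ x ∈ S, ∑ y ∈ T, m x * m y * (w (σ • x) * w (σ • y)) := by
      intro σ
      rw [Finset.sum_mul_sum]
      exact Finset.sum_congr rfl fun x _ => Finset.sum_congr rfl fun y _ => by ring
    rw [Finset.sum_congr rfl fun σ _ => h3 σ, Finset.sum_comm]
    refine Finset.sum_eq_zero fun x hx => ?_
    rw [Finset.sum_comm]
    refine Finset.sum_eq_zero fun y hy => ?_
    rw [← Finset.mul_sum, h1 x hx y hy, mul_zero]
  have h3 : ∑ σ : Γ, (∑ x ∈ S, m x * w (σ • x)) ^ 2 = 0 := by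
    have h4 : ∀ σ : Γ, (∑ x ∈ S, m x * w (σ • x)) ^ 2 =
        - ((∑ x ∈ S, m x * w (σ • x)) * (∑ y ∈ T, m y * w (σ • y))) := by
      intro σ
      have := h σ
      have h5 : ∑ y ∈ T, m y * w (σ • y) = - ∑ x ∈ S, m x * w (σ • x) := by linarith
      rw [h5]; ring
    rw [Finset.sum_congr rfl fun σ _ => h4 σ, Finset.sum_neg_distrib, h2, neg_zero]
  have h4 := (Finset.sum_eq_zero_iff_of_nonneg fun σ _ => sq_nonneg _).1 h3 σ (Finset.mem_univ _)
  exact pow_eq_zero_iff (two_ne_zero) |>.1 h4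

end orth

end Pool.Agent.Hx18.PP
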