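import Mathlib

/-!
# Weights on the embeddings of a CM field: definitions
-/

set_option autoImplicit false

namespace Pool.Agent.Hx18.PP

open NumberField Module

section

variable {E : Type} [Field E] [NumberField E]

/-- The embedding `φ` of `E` extends the embedding `τ` of the subfield `F`. -/
def Over (F : IntermediateField ℚ E) (τ : F →+* ℂ) (φ : E →+* ℂ) : Prop :=
  φ.comp (algebraMap F E) = τ

open Classical in
/-- There are a prime number `l` and a real embedding `τ` of a subfield `F` of `E`, with `E` of degree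
`2 * l ^ k` over `F`, such that the weights `M φ` are divisible by `l` for all embeddings `φ` which do
not extend `τ`, and no sum `∑ ± M φ` over the extensions `φ` of `τ`, with the same sign for complex
conjugate embeddings, is divisible by `2 * l`. -/
def PrimePowerBlock (M : (E →+* ℂ) → ℤ) : Prop :=
  ∃ (l k : ℕ) (F : IntermediateField ℚ E) (τ : F →+* ℂ), l.Prime ∧ ComplexEmbedding.IsReal τ ∧
    (∀ φ, ¬ Over F τ φ → (l : ℤ) ∣ M φ) ∧ finrank F E = 2 * l ^ k ∧
    ∀ ε : (E →+* ℂ) → ℤ, (∀ φ, ε φ = 1 ∨ ε φ = -1) →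
      (∀ φ, ε (ComplexEmbedding.conjugate φ) = ε φ) →
        ¬ (2 * l : ℤ) ∣ ∑ φ with Over F τ φ, ε φ * M φ

/-- There is a real embedding `τ` of a subfield `F` of `E`, with `E` of degree divisible by four over
`F`, such that exactly the weights `M φ` of the embeddings `φ` which extend `τ`, with the exception
of one complex conjugate pair of them, are odd. -/
def ParityBlock (M : (E →+* ℂ) → ℤ) : Prop :=
  ∃ (F : IntermediateField ℚ E) (τ : F →+* ℂ) (φ₀ : E →+* ℂ), ComplexEmbedding.IsReal τ ∧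
    4 ∣ finrank F E ∧ Over F τ φ₀ ∧
    ∀ φ, Odd (M φ) ↔ Over F τ φ ∧ φ ≠ φ₀ ∧ φ ≠ ComplexEmbedding.conjugate φ₀

open Classical in
/-- One of the weights is larger than the sum of the others (of the other complex conjugate pairs). -/
def Dominant (M : (E →+* ℂ) → ℤ) : Prop :=
  ∃ φ₀ : E →+* ℂ, ∑ φ with φ ≠ φ₀ ∧ φ ≠ ComplexEmbedding.conjugate φ₀, |M φ| < 2 * |M φ₀|

/-- There are an odd prime number `l` and a real embedding `τ` of a subfield `F` of `E`, which is not
contained in a CM subfield of `E` different from `E`, such that the weights `M φ` are divisible by `l`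
with the exception of two complex conjugate pairs of extensions of `τ`, whose weights are equal
modulo `l`, up to the sign. -/
def TwoWeights [IsCMField E] (M : (E →+* ℂ) → ℤ) : Prop :=
  ∃ (l : ℕ) (F : IntermediateField ℚ E) (τ : F →+* ℂ) (φ₁ φ₂ : E →+* ℂ), l.Prime ∧ l ≠ 2 ∧
    ComplexEmbedding.IsReal τ ∧ Over F τ φ₁ ∧ Over F τ φ₂ ∧ φ₂ ≠ φ₁ ∧
    φ₂ ≠ ComplexEmbedding.conjugate φ₁ ∧ ¬ (l : ℤ) ∣ M φ₁ ∧
    ((l : ℤ) ∣ M φ₁ - M φ₂ ∨ (l : ℤ) ∣ M φ₁ + M φ₂) ∧
    (∀ φ, φ ≠ φ₁ → φ ≠ ComplexEmbedding.conjugate φ₁ → φ ≠ φ₂ →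
      φ ≠ ComplexEmbedding.conjugate φ₂ → (l : ℤ) ∣ M φ) ∧
    ∀ K : IntermediateField ℚ E, F ≤ K → (∃ z ∈ K, IsCMField.complexConj E z ≠ z) → K = ⊤

/-- The four kinds of weights. -/
def IsRigid [IsCMField E] (M : (E →+* ℂ) → ℤ) : Prop :=
  PrimePowerBlock M ∨ ParityBlock M ∨ Dominant M ∨ TwoWeights M

end

end Pool.Agent.Hx18.PP
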