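import Pool.Agent.Hx18.PP.Two
import Pool.Agent.Hx18.PP.Dom
import Pool.Agent.H204R3.CM.Main
import Pool.Agent.H977R3.CM.Tower
import Pool.Agent.H977R3.CM.Aut
import Pool.Agent.Q29.OS.Tower
import Pool.Agent.Hx18.PP.RigidDefs

/-!
# Weights on the embeddings of a CM field without relations
-/

set_option autoImplicit false
set_option linter.unusedSectionVars false

namespace Pool.Agent.Hx18.PP

open NumberField Module Pool.Agent.H204R3.CM Pool.Agent.H977R3.CM Pool.Agent.Q29.OS MulAction

section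

variable {E : Type} [Field E] [NumberField E] [IsCMField E]

/-- Reduction to embeddings in a Galois extension of `ℚ`. -/
theorem noRelationsOf_of {e : (E →+* ℂ) → ℤ}
    (H : ∀ (L : Type) [Field L] [NumberField L] [IsGalois ℚ L] (j : L →+* ℂ),
      (∀ ψ : E →+* ℂ, ∃ φ : E →+* L, j.comp φ = ψ) → ∀ m : (E →+* L) → ℤ,
      (∀ x, m (cbar x) = - m x) →
      (∀ γ : L ≃ₐ[ℚ] L, ∑ x, m (γ • x) * e (j.comp x) = 0) → m = 0) : NoRelationsOf e := by
  intro c hc hrel
  obtain ⟨L, _, _, j, hj⟩ := exists_galois (fun _ : Unit => E)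
  have h : ∀ ψ : E →+* ℂ, ∃ φ : E →+* L, j.comp φ = ψ := hj ()
  have h1 := H L j h (fun x => c (j.comp x)) (fun x => by
    rw [comp_cbar]
    exact hc _) (by
    intro γ
    obtain ⟨σ, hσ⟩ := exists_aut j ((γ⁻¹ : L ≃ₐ[ℚ] L) : L ≃+* L)
    rw [← hrel σ]
    refine Fintype.sum_equiv ((MulAction.toPerm γ).trans (embEquiv j h)) _ _ fun y => ?_
    have h1 : ((MulAction.toPerm γ).trans (embEquiv j h)) y = j.comp (γ • y) := rfl
    rw [h1]
    congr 2
    ext x
    change j (y x) = σ (j ((γ • y) x))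
    rw [hσ]
    change j (y x) = j (γ⁻¹ (γ (y x)))
    congr 1
    exact (γ.symm_apply_apply (y x)).symm)
  funext φ
  obtain ⟨x, rfl⟩ := h φ
  exact congrFun h1 x

variable {L : Type} [Field L] [NumberField L] [IsGalois ℚ L] (j : L →+* ℂ)
  (h : ∀ ψ : E →+* ℂ, ∃ φ : E →+* L, j.comp φ = ψ) (F : IntermediateField ℚ E) (τ : F →+* ℂ)

/-- The embeddings over `τ`. -/
def blk : Set (E →+* L) := {x | Over F τ (j.comp x)}

lemma cbar_mem_blk (hτ : ComplexEmbedding.IsReal τ) {x : E →+* L} (hx : x ∈ blk j F τ) :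
    cbar x ∈ blk j F τ := by
  change (j.comp (cbar x)).comp (algebraMap F E) = τ
  rw [comp_cbar]
  have h1 : (j.comp x).comp (algebraMap F E) = τ := hx
  have h2 : ComplexEmbedding.conjugate τ = τ := hτ
  rw [← h2, ← h1]
  rfl

lemma blk_block (γ : L ≃ₐ[ℚ] L) {x : E →+* L} (hx : x ∈ blk j F τ)
    (hγx : γ • x ∈ blk j F τ) {y : E →+* L} (hy : y ∈ blk j F τ) : γ • y ∈ blk j F τ := by
  have h1 : (j.comp x).comp (algebraMap F E) = τ := hx
  have h2 : (j.comp (γ • x)).comp (algebraMap F E) = τ := hγx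
  have h3 : (j.comp y).comp (algebraMap F E) = τ := hy
  change (j.comp (γ • y)).comp (algebraMap F E) = τ
  rw [← h2]
  ext z
  change j (γ (y z)) = j (γ (x z))
  congr 2
  apply j.injective
  exact RingHom.congr_fun (h3.trans h1.symm) z

include h in
lemma ncard_blk : (blk j F τ).ncard = finrank F E := by
  letI : Algebra F ℂ := τ.toAlgebra
  have h1 : Fintype.card (E →ₐ[F] ℂ) = finrank F E := AlgHom.card F E ℂ
  rw [← h1, ← Nat.card_eq_fintype_card]
  refine (Nat.card_coe_set_eq (blk j F τ)).symm.trans (Nat.card_congr ?_)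
  exact
    { toFun := fun x => { toRingHom := j.comp x.1, commutes' := fun z => RingHom.congr_fun x.2 z }
      invFun := fun f => ⟨(h f.toRingHom).choose, by
        change (j.comp _).comp (algebraMap F E) = τ
        rw [(h f.toRingHom).choose_spec]
        ext z
        exact f.commutes z⟩
      left_inv := by
        intro x
        apply Subtype.ext
        have h2 := (h (j.comp x.1)).choose_spec
        ext z
        apply j.injective
        exact RingHom.congr_fun h2 z
      right_inv := by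
        intro f
        ext z
        exact RingHom.congr_fun (h f.toRingHom).choose_spec z }

end

section types

variable {E : Type} [Field E] [NumberField E] [IsCMField E] {M : (E →+* ℂ) → ℤ}
  {e : (E →+* ℂ) → ℤ}

lemma dvd_iff_of_sign (hs : ∀ φ, e φ = M φ ∨ e φ = - M φ) (n : ℤ) (φ : E →+* ℂ) :
    n ∣ e φ ↔ n ∣ M φ := by
  rcases hs φ with h | h <;> rw [h]
  exact dvd_neg

/-- Blocks of prime power degree. -/
theorem noRelationsOf_primePowerBlock (he : ∀ φ, e (ComplexEmbedding.conjugate φ) = - e φ)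
    (hMc : ∀ φ, M (ComplexEmbedding.conjugate φ) = M φ) (hs : ∀ φ, e φ = M φ ∨ e φ = - M φ) (hM : PrimePowerBlock M) : NoRelationsOf e := by
  classical
  obtain ⟨l, k, F, τ, hl, hτ, hout, hdeg, hsum⟩ := hM
  refine noRelationsOf_of ?_
  intro L _ _ _ j h m hm hrel
  have hlF := Fact.mk hl
  have hej : ∀ x : E →+* L, e (j.comp (cbar x)) = - e (j.comp x) := fun x => by
    rw [comp_cbar]; exact he _
  have hcard : (blk j F τ).ncard = 2 * l ^ k := by rw [ncard_blk j h, hdeg]
  have hne : (blk j F τ).Nonempty := by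
    apply Set.nonempty_of_ncard_ne_zero
    rw [hcard]
    have := pow_pos hl.pos k
    omega
  refine rel_zero (Γ := L ≃ₐ[ℚ] L) (X := E →+* L) cbar cbar_cbar (fun γ x => rfl) cbar_ne
    (fun x y => MulAction.exists_smul_eq _ x y) (fun x => e (j.comp x)) hej l k (blk j F τ) hne
    (fun x hx => cbar_mem_blk j F τ hτ hx) (fun γ x hx hγx y hy => blk_block j F τ γ hx hγx hy)
    hcard ?_ ?_ m hm hrel
  · intro x hx
    rw [dvd_iff_of_sign hs]
    exact hout _ hx
  · intro T hT1 hT2 _ hdvd
    let J := embEquiv j h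
    have hJ : ∀ x, J x = j.comp x := fun x => rfl
    -- the sign of `φ` with respect to `T`
    let sT : (E →+* L) → ℤ := fun x => if x ∈ T then 1 else if cbar x ∈ T then -1 else 0
    have hsT1 : ∀ x ∈ T, sT x = 1 := fun x hx => if_pos hx
    have hsT2 : ∀ x, cbar x ∈ T → sT x = -1 := by
      intro x hx
      have h1 : x ∉ T := by
        have := (hT1 _ hx).2
        rwa [cbar_cbar] at this
      simp only [sT, if_neg h1, if_pos hx]
    have hsT3 : ∀ x, sT (cbar x) = - sT x := by
      intro x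
      by_cases h1 : x ∈ T
      · rw [hsT1 x h1, hsT2 (cbar x) (by rw [cbar_cbar]; exact h1)]
      · by_cases h2 : cbar x ∈ T
        · rw [hsT2 x h2, hsT1 _ h2]; norm_num
        · have h3 : cbar (cbar x) ∉ T := by rw [cbar_cbar]; exact h1
          simp only [sT, if_neg h1, if_neg h2, if_neg h3]; norm_num
    let S : (E →+* ℂ) → ℤ := fun φ => sT (J.symm φ) * e φ
    have hSj : ∀ x, S (j.comp x) = sT x * e (j.comp x) := by
      intro x
      simp only [S]
      rw [← hJ, J.symm_apply_apply]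
    have hSc : ∀ φ, S (ComplexEmbedding.conjugate φ) = S φ := by
      intro φ
      obtain ⟨x, rfl⟩ := h φ
      rw [← comp_cbar, hSj, hSj, hsT3, hej]
      ring
    refine hsum (fun φ => if S φ = M φ then 1 else -1) (fun φ => ?_) (fun φ => ?_) ?_
    · split_ifs
      · exact Or.inl rfl
      · exact Or.inr rfl
    · rw [hSc, hMc]
    · have h1 : ∑ φ with Over F τ φ, (if S φ = M φ then 1 else -1) * M φ =
          ∑ φ with Over F τ φ, S φ := by
        refine Finset.sum_congr rfl fun φ hφ => ?_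
        have hφ' : Over F τ φ := (Finset.mem_filter.1 hφ).2
        split_ifs with h2
        · rw [h2]; ring
        · obtain ⟨x, rfl⟩ := h φ
          have h3 : sT x = 1 ∨ sT x = -1 := by
            rcases hT2 x hφ' with h4 | h4
            · exact Or.inl (hsT1 x h4)
            · exact Or.inr (hsT2 x h4)
          rw [hSj] at h2 ⊢
          rcases h3 with h4 | h4 <;> rcases hs (j.comp x) with h5 | h5 <;> rw [h4, h5] at h2 ⊢
          · exact absurd (one_mul _) h2
          · ring
          · exact absurd (by ring) h2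
      have h2 : ∑ φ with Over F τ φ, S φ = ∑ x with x ∈ blk j F τ, sT x * e (j.comp x) := by
        symm
        refine Finset.sum_bij (fun x _ => j.comp x) ?_ ?_ ?_ ?_
        · intro x hx
          exact Finset.mem_filter.2 ⟨Finset.mem_univ _, (Finset.mem_filter.1 hx).2⟩
        · intro x _ y _ hxy
          exact J.injective hxy
        · intro φ hφ
          obtain ⟨x, rfl⟩ := h φ
          exact ⟨x, Finset.mem_filter.2 ⟨Finset.mem_univ _, (Finset.mem_filter.1 hφ).2⟩, rfl⟩
        · intro x _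
          exact (hSj x).symm
      have hcinj : Function.Injective (cbar : (E →+* L) → (E →+* L)) := fun x y hxy => by
        have := congrArg cbar hxy
        rwa [cbar_cbar, cbar_cbar] at this
      have h3 : (Finset.univ.filter fun x => x ∈ blk j F τ) = T ∪ T.image cbar := by
        ext x
        simp only [Finset.mem_filter, Finset.mem_univ, true_and, Finset.mem_union,
          Finset.mem_image]
        constructor
        · intro hx
          rcases hT2 x hx with h4 | h4
          · exact Or.inl h4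
          · exact Or.inr ⟨cbar x, h4, cbar_cbar x⟩
        · rintro (hx | ⟨y, hy, rfl⟩)
          · exact (hT1 x hx).1
          · exact cbar_mem_blk j F τ hτ (hT1 y hy).1
      have h4 : Disjoint T (T.image cbar) := by
        rw [Finset.disjoint_left]
        intro x hx hx'
        obtain ⟨y, hy, rfl⟩ := Finset.mem_image.1 hx'
        exact (hT1 y hy).2 hx
      rw [h1, h2, h3, Finset.sum_union h4, Finset.sum_image (fun x _ y _ h => hcinj h)]
      have h5 : ∑ x ∈ T, sT x * e (j.comp x) = ∑ x ∈ T, e (j.comp x) :=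
        Finset.sum_congr rfl fun x hx => by rw [hsT1 x hx, one_mul]
      have h6 : ∑ x ∈ T, sT (cbar x) * e (j.comp (cbar x)) = ∑ x ∈ T, e (j.comp x) :=
        Finset.sum_congr rfl fun x hx => by rw [hsT3, hej, hsT1 x hx]; ring
      rw [h5, h6, ← two_mul]
      exact mul_dvd_mul_left 2 hdvd

/-- Blocks with one exceptional pair of embeddings, modulo two. -/
theorem noRelationsOf_parityBlock (he : ∀ φ, e (ComplexEmbedding.conjugate φ) = - e φ)
    (hs : ∀ φ, e φ = M φ ∨ e φ = - M φ) (hM : ParityBlock M) : NoRelationsOf e := by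
  classical
  obtain ⟨F, τ, φ₀, hτ, hdeg, hφ₀, hodd⟩ := hM
  refine noRelationsOf_of ?_
  intro L _ _ _ j h m hm hrel
  have hej : ∀ x : E →+* L, e (j.comp (cbar x)) = - e (j.comp x) := fun x => by
    rw [comp_cbar]; exact he _
  obtain ⟨x₀, rfl⟩ := h φ₀
  obtain ⟨r, hr⟩ := hdeg
  have hiff : ∀ φ, (2 : ℤ) ∣ e φ ↔ ¬ (Over F τ φ ∧ φ ≠ j.comp x₀ ∧
      φ ≠ ComplexEmbedding.conjugate (j.comp x₀)) := by
    intro φ
    rw [dvd_iff_of_sign hs, ← hodd, Int.not_odd_iff_even, even_iff_two_dvd]
  refine rel_zero_but_one_block (Γ := L ≃ₐ[ℚ] L) (X := E →+* L) cbar cbar_cbar (fun γ x => rfl)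
    cbar_ne (fun x y => MulAction.exists_smul_eq _ x y) (fun x => e (j.comp x)) hej (blk j F τ)
    (fun x hx => cbar_mem_blk j F τ hτ hx) (fun γ x hx hγx y hy => blk_block j F τ γ hx hγx hy)
    (2 * r) (even_two_mul r) (by rw [ncard_blk j h, hr]; ring) ?_ x₀ hφ₀ ?_ ?_ m hm hrel
  · intro x hx
    exact (hiff _).2 fun h1 => hx h1.1
  · exact (hiff _).2 fun h1 => h1.2.1 rfl
  · intro x hx h1 h2 h3
    refine (hiff _).1 h3 ⟨hx, fun h4 => h1 ((embEquiv j h).injective h4), fun h4 => ?_⟩
    rw [← comp_cbar] at h4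
    exact h2 ((embEquiv j h).injective h4)

/-- One dominating weight. -/
theorem noRelationsOf_dominant (he : ∀ φ, e (ComplexEmbedding.conjugate φ) = - e φ)
    (hs : ∀ φ, e φ = M φ ∨ e φ = - M φ) (hM : Dominant M) : NoRelationsOf e := by
  classical
  obtain ⟨φ₀, hφ₀⟩ := hM
  refine noRelationsOf_of ?_
  intro L _ _ _ j h m hm hrel
  obtain ⟨x₀, rfl⟩ := h φ₀
  have habs : ∀ φ, |e φ| = |M φ| := by
    intro φ
    rcases hs φ with h1 | h1 <;> rw [h1]
    exact abs_neg _
  have h1 := rel_zero_dom (Γ := L ≃ₐ[ℚ] L) (X := E →+* L) cbar (fun γ x => rfl)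
    (fun x y => MulAction.exists_smul_eq _ x y) (fun x => (e (j.comp x) : ℝ)) (fun x => by
      change ((e (j.comp (cbar x)) : ℤ) : ℝ) = _
      rw [comp_cbar, he]; push_cast; rfl) x₀ (by
      have h2 : ∑ φ with φ ≠ j.comp x₀ ∧ φ ≠ ComplexEmbedding.conjugate (j.comp x₀), |M φ| =
          ∑ x ∈ Finset.univ.filter (fun x => x ≠ x₀ ∧ x ≠ cbar x₀), |e (j.comp x)| := by
        symm
        refine Finset.sum_bij (fun x _ => j.comp x) ?_ ?_ ?_ ?_
        · intro x hx
          have h3 := (Finset.mem_filter.1 hx).2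
          refine Finset.mem_filter.2 ⟨Finset.mem_univ _, fun h4 =>
            h3.1 ((embEquiv j h).injective h4), fun h4 => ?_⟩
          rw [← comp_cbar] at h4
          exact h3.2 ((embEquiv j h).injective h4)
        · intro x _ y _ hxy
          exact (embEquiv j h).injective hxy
        · intro φ hφ
          obtain ⟨x, rfl⟩ := h φ
          have h3 := (Finset.mem_filter.1 hφ).2
          refine ⟨x, Finset.mem_filter.2 ⟨Finset.mem_univ _, ?_, ?_⟩, rfl⟩
          · rintro rfl; exact h3.1 rfl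
          · rintro rfl; exact h3.2 (comp_cbar j x₀)
        · intro x _
          exact habs _
      rw [h2, ← habs] at hφ₀
      exact_mod_cast hφ₀) (fun x => (m x : ℝ)) (fun x => by
      change ((m (cbar x) : ℤ) : ℝ) = _
      rw [hm]; push_cast; rfl) (fun γ => by
      have h2 := hrel γ
      exact_mod_cast h2)
  funext x
  have h2 := congrFun h1 x
  simp only [Pi.zero_apply] at h2
  exact_mod_cast h2

/-- The complex conjugation as an element of the Galois group. -/
theorem exists_conj {L : Type} [Field L] [NumberField L] [IsGalois ℚ L] (j : L →+* ℂ) :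
    ∃ c : L ≃ₐ[ℚ] L, ∀ x : E →+* L, c • x = cbar x := by
  obtain ⟨c, hc⟩ := exists_gal j (Complex.conjAe.toRingEquiv)
  refine ⟨c, fun x => ?_⟩
  ext z
  apply j.injective
  have h1 := hc (x z)
  have h2 := RingHom.congr_fun (comp_cbar j x) z
  change j (c (x z)) = j (cbar x z)
  rw [← h1]
  exact h2.symm

/-- Two equal weights. -/
theorem noRelationsOf_twoWeights (he : ∀ φ, e (ComplexEmbedding.conjugate φ) = - e φ)
    (hs : ∀ φ, e φ = M φ ∨ e φ = - M φ) (hM : TwoWeights M) : NoRelationsOf e := by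
  classical
  obtain ⟨l, F, τ, φ₁, φ₂, hl, hl2, hτ, hφ₁, hφ₂, hne, hne', h1, h12, hout, hCM⟩ := hM
  refine noRelationsOf_of ?_
  intro L _ _ _ j h m hm hrel
  by_contra hm0
  have hej : ∀ x : E →+* L, e (j.comp (cbar x)) = - e (j.comp x) := fun x => by
    rw [comp_cbar]; exact he _
  obtain ⟨x₁, rfl⟩ := h φ₁
  obtain ⟨c, hc⟩ := exists_conj (E := E) j
  have hinj := (embEquiv j h).injective
  -- the second embedding, up to complex conjugation
  obtain ⟨x₂, hx₂, he12⟩ : ∃ x₂ : E →+* L, (j.comp x₂ = φ₂ ∨ j.comp (cbar x₂) = φ₂) ∧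
      (l : ℤ) ∣ e (j.comp x₁) - e (j.comp x₂) := by
    obtain ⟨y, rfl⟩ := h φ₂
    have h3 : (l : ℤ) ∣ e (j.comp x₁) - e (j.comp y) ∨ (l : ℤ) ∣ e (j.comp x₁) + e (j.comp y) := by
      rcases hs (j.comp x₁) with h4 | h4 <;> rcases hs (j.comp y) with h5 | h5 <;>
        rcases h12 with ⟨r, hr⟩ | ⟨r, hr⟩ <;> rw [h4, h5]
      · exact Or.inl ⟨r, by linear_combination hr⟩
      · exact Or.inr ⟨r, by linear_combination hr⟩
      · exact Or.inr ⟨r, by linear_combination hr⟩
      · exact Or.inl ⟨r, by linear_combination hr⟩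
      · exact Or.inr ⟨-r, by linear_combination -hr⟩
      · exact Or.inl ⟨-r, by linear_combination -hr⟩
      · exact Or.inl ⟨-r, by linear_combination -hr⟩
      · exact Or.inr ⟨-r, by linear_combination -hr⟩
    rcases h3 with h3 | h3
    · exact ⟨y, Or.inl rfl, h3⟩
    · refine ⟨cbar y, Or.inr (by rw [cbar_cbar]), ?_⟩
      rw [hej, sub_neg_eq_add]
      exact h3
  have hx₂ne : x₂ ≠ x₁ := by
    rintro rfl
    rcases hx₂ with h3 | h3
    · exact hne h3.symm
    · exact hne' (by rw [← h3, comp_cbar])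
  have hx₂ne' : x₂ ≠ cbar x₁ := by
    rintro rfl
    rcases hx₂ with h3 | h3
    · exact hne' (by rw [← h3, comp_cbar])
    · rw [cbar_cbar] at h3
      exact hne h3.symm
  have hx₂B : x₂ ∈ blk j F τ := by
    rcases hx₂ with h3 | h3
    · rw [← h3] at hφ₂; exact hφ₂
    · rw [← h3] at hφ₂
      have h4 := cbar_mem_blk j F τ hτ (x := cbar x₂) hφ₂
      rwa [cbar_cbar] at h4
  have hx₁B : x₁ ∈ blk j F τ := hφ₁
  obtain ⟨U, t, hstab, hcU, ht, htc⟩ := exists_subgroup (Γ := L ≃ₐ[ℚ] L) (X := E →+* L) c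
    (fun γ x => by rw [hc, hc]; rfl) (fun x y => MulAction.exists_smul_eq _ x y)
    (fun x => e (j.comp x)) (fun x => by rw [hc]; exact hej x) l hl hl2 x₁ x₂
    (by rw [hc]; exact cbar_ne _) (by rw [hc]; exact cbar_ne _) hx₂ne (by rw [hc]; exact hx₂ne')
    (fun x => by rw [hc, hc, cbar_cbar]) (by rw [dvd_iff_of_sign hs]; exact h1) he12 (by
      intro x h3 h4 h5 h6
      rw [hc] at h4 h6
      rw [dvd_iff_of_sign hs]
      refine hout _ (fun h7 => h3 (hinj h7)) (fun h7 => ?_) (fun h7 => ?_) (fun h7 => ?_)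
      · rw [← comp_cbar] at h7
        exact h4 (hinj h7)
      · rcases hx₂ with h8 | h8
        · rw [← h8] at h7; exact h5 (hinj h7)
        · rw [← h8] at h7; exact h6 (hinj h7)
      · rcases hx₂ with h8 | h8
        · rw [← h8, ← comp_cbar] at h7; exact h6 (hinj h7)
        · rw [← h8, ← comp_cbar, cbar_cbar] at h7; exact h5 (hinj h7)) m
    (fun x => by rw [hc]; exact hm x) hrel hm0
  -- the subfield
  let x₁A : E →ₐ[ℚ] L := x₁.toRatAlgHom
  have hx₁A : ∀ z, x₁A z = x₁ z := fun z => rfl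
  let K₀ : IntermediateField ℚ L := F.map x₁A
  let U' : Subgroup (L ≃ₐ[ℚ] L) := U ⊓ K₀.fixingSubgroup
  let Fx : IntermediateField ℚ L := IntermediateField.fixedField U'
  have hFx : Fx.fixingSubgroup = U' := IntermediateField.fixingSubgroup_fixedField U'
  let K : IntermediateField ℚ E := Fx.comap x₁A
  have hmFx : ∀ y : L, y ∈ Fx ↔ ∀ γ ∈ U', γ y = y := by
    intro y
    constructor
    · intro hy γ hγ
      exact hy ⟨γ, hγ⟩
    · intro hy γ
      exact hy γ.1 γ.2
  have hmK : ∀ z : E, z ∈ K ↔ x₁ z ∈ Fx := fun z => Iff.rfl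
  have hFK : F ≤ K := by
    intro z hz
    rw [hmK, hmFx]
    intro γ hγ
    exact (IntermediateField.mem_fixingSubgroup_iff K₀ γ).1 hγ.2 _ ⟨z, hz, rfl⟩
  have hrange : Fx ≤ x₁A.fieldRange := by
    have h3 : x₁A.fieldRange.fixingSubgroup ≤ U' := by
      intro γ hγ
      rw [IntermediateField.mem_fixingSubgroup_iff] at hγ
      refine Subgroup.mem_inf.2 ⟨hstab ?_, ?_⟩
      · rw [mem_stabilizer_iff]
        ext z
        exact hγ (x₁ z) ⟨z, rfl⟩
      · rw [IntermediateField.mem_fixingSubgroup_iff]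
        rintro y ⟨z, hz, rfl⟩
        exact hγ _ ⟨z, rfl⟩
    have h4 := IntermediateField.fixedField_antitone h3
    rwa [IsGalois.fixedField_fixingSubgroup] at h4
  have hex : ∃ z ∈ K, IsCMField.complexConj E z ≠ z := by
    have h3 : c ∉ U' := fun h4 => hcU h4.1
    rw [← hFx, IntermediateField.mem_fixingSubgroup_iff] at h3
    push Not at h3
    obtain ⟨y, hy, hcy⟩ := h3
    obtain ⟨z, rfl⟩ := hrange hy
    refine ⟨z, hy, fun h4 => hcy ?_⟩
    have h5 := RingHom.congr_fun (hc x₁) z
    rw [cbar_apply, h4] at h5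
    exact h5
  have hKtop := hCM K hFK hex
  have htc' : t * c ∈ U' := by
    refine Subgroup.mem_inf.2 ⟨htc, ?_⟩
    rw [IntermediateField.mem_fixingSubgroup_iff]
    rintro y ⟨z, hz, rfl⟩
    have h3 : (t * c) • x₁ = cbar x₂ := by
      rw [mul_smul, hc, ← ht]; rfl
    have h4 := RingHom.congr_fun h3 z
    have h5 : cbar x₂ ∈ blk j F τ := cbar_mem_blk j F τ hτ hx₂B
    have h6 : (j.comp (cbar x₂)).comp (algebraMap F E) = τ := h5
    have h7 : (j.comp x₁).comp (algebraMap F E) = τ := hx₁B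
    have h8 := RingHom.congr_fun (h6.trans h7.symm) ⟨z, hz⟩
    have h9 : cbar x₂ z = x₁ z := j.injective h8
    rw [h9] at h4
    exact h4
  have h3 : (t * c) • x₁ = x₁ := by
    ext z
    have h4 : z ∈ K := by rw [hKtop]; exact IntermediateField.mem_top
    exact (hmFx _).1 ((hmK z).1 h4) _ htc'
  have h4 : (t * c) • x₁ = cbar x₂ := by
    rw [mul_smul, hc, ← ht]; rfl
  rw [h4] at h3
  exact hx₂ne' (by rw [← h3, cbar_cbar])

/-- All four kinds of weights. -/
theorem noRelationsOf_rigid (he : ∀ φ, e (ComplexEmbedding.conjugate φ) = - e φ)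
    (hMc : ∀ φ, M (ComplexEmbedding.conjugate φ) = M φ)
    (hs : ∀ φ, e φ = M φ ∨ e φ = - M φ) (hM : IsRigid M) : NoRelationsOf e := by
  rcases hM with h | h | h | h
  · exact noRelationsOf_primePowerBlock he hMc hs h
  · exact noRelationsOf_parityBlock he hs h
  · exact noRelationsOf_dominant he hs h
  · exact noRelationsOf_twoWeights he hs h

/-- The weights of one of the four kinds have no relations for any CM type. -/
theorem noRelations_rigid (hMc : ∀ φ, M (ComplexEmbedding.conjugate φ) = M φ) (hM : IsRigid M)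
    {Φ : Set (E →+* ℂ)} (hΦ : IsCMType Φ) : NoRelations M Φ := by
  have h1 : NoRelationsOf (E := E) (fun φ => Pool.Agent.TH170.CM.sgn Φ φ * M φ) := by
    refine noRelationsOf_rigid (M := M) ?_ hMc ?_ hM
    · intro φ
      rw [sgn_conj' hΦ, hMc]; ring
    · intro φ
      rcases sgn_sq Φ φ with h2 | h2 <;> rw [h2]
      · left; ring
      · right; ring
  exact h1

end types

end Pool.Agent.Hx18.PP
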