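import Pool.Agent.Hx18.PP.Slo

/-!
# Newton polygons that exclude relations
-/

set_option autoImplicit false

open Polynomial NumberField Pool.Agent.W518.TC Pool.Agent.W518.DN

namespace Pool.Agent.Hx18.PP

section signs

/-- Signed sums. -/
theorem exists_signs (g : ℕ) : ∀ (M : Fin g → ℤ) (A : Multiset ℤ),
    A.map Int.natAbs = Finset.univ.val.map (fun j => (M j).natAbs) →
    ∃ ε : Fin g → ℤ, (∀ j, ε j = 1 ∨ ε j = -1) ∧ A.sum = ∑ j, ε j * M j := by
  induction g with
  | zero =>
    intro M A hA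
    have h1 : A = 0 := by
      rw [← Multiset.card_eq_zero, ← Multiset.card_map Int.natAbs, hA]
      simp
    exact ⟨fun _ => 1, fun _ => Or.inl rfl, by simp [h1]⟩
  | succ g ih =>
    intro M A hA
    have h0 : (Finset.univ.val.map (fun j : Fin (g + 1) => (M j).natAbs) : Multiset ℕ) =
        (M 0).natAbs ::ₘ Finset.univ.val.map (fun j : Fin g => (M j.succ).natAbs) := by
      rw [Fin.univ_succ]
      simp [Multiset.map_map, Function.comp_def]
    rw [h0] at hA
    have h1 : (M 0).natAbs ∈ A.map Int.natAbs := by rw [hA]; exact Multiset.mem_cons_self _ _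
    obtain ⟨b, hb, hb'⟩ := Multiset.mem_map.1 h1
    obtain ⟨A', rfl⟩ := Multiset.exists_cons_of_mem hb
    rw [Multiset.map_cons, hb', Multiset.cons_inj_right] at hA
    obtain ⟨ε, h2, h3⟩ := ih (fun j => M j.succ) A' hA
    rcases Int.natAbs_eq_natAbs_iff.1 hb' with h4 | h4
    · refine ⟨Fin.cons 1 ε, ?_, ?_⟩
      · intro j
        refine Fin.cases (Or.inl rfl) (fun i => ?_) j
        simpa using h2 i
      · rw [Fin.sum_univ_succ, Multiset.sum_cons, h3, h4]
        simp
    · refine ⟨Fin.cons (-1) ε, ?_, ?_⟩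
      · intro j
        refine Fin.cases (Or.inr rfl) (fun i => ?_) j
        simpa using h2 i
      · rw [Fin.sum_univ_succ, Multiset.sum_cons, h3, h4]
        simp

end signs

section slopes

variable {p : ℕ} [hpp : Fact p.Prime] {a : ℕ} {L : Type} [Field L] [NumberField L]
  (ψ : L →+* AlgebraicClosure ℚ_[p]) {P : ℤ[X]} {g : ℕ} {s : Fin g → ℚ}

/-- The weights of the roots. -/
theorem weights (hm : P.Monic) (hs : (P.map (Int.castRingHom L)).Splits)
    (hsl : HasSlopes p a s P) :
    (P.map (Int.castRingHom L)).roots.map (wt p a ψ) =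
      Finset.univ.val.map (fun j => (a : ℝ) * (1 - 2 * (s j : ℝ))) +
        Finset.univ.val.map (fun j => -((a : ℝ) * (1 - 2 * (s j : ℝ)))) := by
  have h1 : (P.map (Int.castRingHom (AlgebraicClosure ℚ_[p]))).roots =
      (P.map (Int.castRingHom L)).roots.map ψ := by
    rw [← hs.roots_map ψ, Polynomial.map_map]
    congr 2
    exact RingHom.ext_int _ _
  have h2 := congrArg (Multiset.map fun r : ℝ => (a : ℝ) + 2 * Real.logb p r) hsl
  rw [h1, Multiset.map_map, Multiset.map_map, Multiset.map_add, Multiset.map_map,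
    Multiset.map_map] at h2
  have hp1 := one_lt_p (p := p)
  refine Eq.trans rfl (h2.trans ?_)
  congr 1
  · refine Multiset.map_congr rfl fun j _ => ?_
    simp only [Function.comp_apply]
    rw [Real.logb_rpow (by linarith) hp1.ne']
    push_cast
    ring
  · refine Multiset.map_congr rfl fun j _ => ?_
    simp only [Function.comp_apply]
    rw [Real.logb_rpow (by linarith) hp1.ne']
    push_cast
    ring

/-- The multiplicities of conjugate roots are equal. -/
theorem mult_eq [DecidableEq L] (σ : L ≃ₐ[ℚ] L) (x : L) :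
    (P.map (Int.castRingHom L)).roots.count (σ x) = (P.map (Int.castRingHom L)).roots.count x := by
  rw [count_roots, count_roots]
  have h2 : (P.map (Int.castRingHom L)) = (P.map (Int.castRingHom L)).map (σ : L →+* L) := by
    rw [Polynomial.map_map]; congr 1; exact RingHom.ext_int _ _
  conv_lhs => rw [h2]
  exact (eq_rootMultiplicity_map (f := (σ : L →+* L)) σ.injective x).symm

/-- Cancelling a factor two of multisets. -/
lemma two_nsmul_inj {A : Type} {S T : Multiset A} (h : S + S = T + T) : S = T := by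
  classical
  ext x
  have := congrArg (Multiset.count x) h
  rw [Multiset.count_add, Multiset.count_add] at this
  omega

variable [hmf : Fact P.Monic]

/-- The setting: a monic polynomial whose roots come in pairs and are conjugate. -/
structure Setup (p a : ℕ) [Fact p.Prime] {L : Type} [Field L] [NumberField L]
    (P : ℤ[X]) : Prop where
  split : (P.map (Int.castRingHom L)).Splits
  sym : Sym (p ^ a) L P
  conj : ∀ x y : Rt L P, ∃ σ : L ≃ₐ[ℚ] L, σ • x = y

/-- The involution `x ↦ q / x` of the roots. -/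
noncomputable def inv (hS : Setup (L := L) p a P) (x : Rt L P) : Rt L P :=
  ⟨((p ^ a : ℕ) : L) / x.1, (hS.sym x.1 x.2).2⟩

variable (hS : Setup (L := L) p a P)
include hS

omit hmf in
lemma inv_inv (x : Rt L P) : inv hS (inv hS x) = x := by
  apply Subtype.ext
  change ((p ^ a : ℕ) : L) / (((p ^ a : ℕ) : L) / x.1) = x.1
  exact div_div_cancel₀ (by exact_mod_cast pow_ne_zero _ hpp.out.ne_zero)

omit hmf in
lemma inv_smul (σ : L ≃ₐ[ℚ] L) (x : Rt L P) : inv hS (σ • x) = σ • inv hS x := by
  apply Subtype.ext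
  change ((p ^ a : ℕ) : L) / σ x.1 = σ (((p ^ a : ℕ) : L) / x.1)
  rw [map_div₀, map_natCast]

omit hmf in
lemma wt_inv (x : Rt L P) : wt p a ψ (inv hS x).1 = - wt p a ψ x.1 :=
  wt_div ψ (hS.sym x.1 x.2).1

/-- Integral weights. -/
theorem exists_int (hsl : HasSlopes p a s P) {c : ℚ} {Mj : Fin g → ℤ}
    (hM : ∀ j, 1 - 2 * s j = c * Mj j) (x : Rt L P) :
    ∃ n : ℤ, wt p a ψ x.1 = (a * c : ℝ) * n := by
  have h1 : wt p a ψ x.1 ∈ (P.map (Int.castRingHom L)).roots.map (wt p a ψ) :=
    Multiset.mem_map_of_mem _ ((mem_roots (hmf.out.map _).ne_zero).2 x.2)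
  rw [weights ψ hmf.out hS.split hsl, Multiset.mem_add] at h1
  have hMr : ∀ j, (1 - 2 * (s j : ℝ)) = c * Mj j := by
    intro j
    have := hM j
    exact_mod_cast this
  rcases h1 with h1 | h1
  · obtain ⟨j, -, hj⟩ := Multiset.mem_map.1 h1
    refine ⟨Mj j, ?_⟩
    rw [← hj, hMr]; ring
  · obtain ⟨j, -, hj⟩ := Multiset.mem_map.1 h1
    refine ⟨-Mj j, ?_⟩
    rw [← hj, hMr]; push_cast; ring

/-- The absolute values of the integral weights. -/
theorem abs_weights (ha : 0 < a) (hsl : HasSlopes p a s P) {c : ℚ} (hc : c ≠ 0) {Mj : Fin g → ℤ}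
    (hM : ∀ j, 1 - 2 * s j = c * Mj j) (M : L → ℤ)
    (hMx : ∀ x : Rt L P, wt p a ψ x.1 = (a * c : ℝ) * M x.1) :
    (P.map (Int.castRingHom L)).roots.map M =
      Finset.univ.val.map Mj + Finset.univ.val.map fun j => - Mj j := by
  have hMr : ∀ j, (1 - 2 * (s j : ℝ)) = c * Mj j := by
    intro j
    have := hM j
    exact_mod_cast this
  have hκ : (a * c : ℝ) ≠ 0 := by
    refine mul_ne_zero ?_ (by exact_mod_cast hc)
    exact_mod_cast ha.ne'
  have hinj : Function.Injective fun n : ℤ => (a * c : ℝ) * n := by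
    intro m n h
    have := mul_left_cancel₀ hκ h
    exact_mod_cast this
  apply Multiset.map_injective hinj
  rw [Multiset.map_add, Multiset.map_map, Multiset.map_map, Multiset.map_map]
  have h1 := weights ψ hmf.out hS.split hsl
  have h2 : (P.map (Int.castRingHom L)).roots.map ((fun n : ℤ => (a * c : ℝ) * n) ∘ M) =
      (P.map (Int.castRingHom L)).roots.map (wt p a ψ) := by
    refine Multiset.map_congr rfl fun x hx => ?_
    exact (hMx ⟨x, (mem_roots (hmf.out.map _).ne_zero).1 hx⟩).symm
  rw [h2, h1]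
  congr 1
  · refine Multiset.map_congr rfl fun j _ => ?_
    simp only [Function.comp_apply]
    rw [hMr]; ring
  · refine Multiset.map_congr rfl fun j _ => ?_
    simp only [Function.comp_apply]
    rw [hMr]; push_cast; ring

/-- The roots with their multiplicities. -/
theorem roots_eq [DecidableEq L] (x0 : Rt L P) :
    (P.map (Int.castRingHom L)).roots =
      (P.map (Int.castRingHom L)).roots.count x0.1 •
        (Finset.univ.val.map fun x : Rt L P => x.1) := by
  ext y
  rw [Multiset.count_nsmul]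
  by_cases hy : (P.map (Int.castRingHom L)).IsRoot y
  · obtain ⟨σ, hσ⟩ := hS.conj x0 ⟨y, hy⟩
    have h1 : y = σ x0.1 := (congrArg Subtype.val hσ).symm
    have h2 : Multiset.count y (Finset.univ.val.map fun x : Rt L P => x.1) = 1 := by
      have h3 : y = (fun x : Rt L P => x.1) ⟨y, hy⟩ := rfl
      conv_lhs => rw [h3]
      rw [Multiset.count_map_eq_count' _ _ Subtype.val_injective]
      exact Multiset.count_eq_one_of_mem Finset.univ.nodup (Finset.mem_univ _)
    rw [h2, mul_one]
    conv_lhs => rw [h1]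
    exact mult_eq σ x0.1
  · have h2 : Multiset.count y (Finset.univ.val.map fun x : Rt L P => x.1) = 0 := by
      apply Multiset.count_eq_zero_of_notMem
      intro h
      obtain ⟨x, -, rfl⟩ := Multiset.mem_map.1 h
      exact hy x.2
    rw [h2, mul_zero]
    exact Multiset.count_eq_zero_of_notMem fun h => hy ((mem_roots (hmf.out.map _).ne_zero).1 h)

/-- Transversals. -/
theorem transversal [DecidableEq L] (T : Finset (Rt L P)) (h1 : ∀ x ∈ T, inv hS x ∉ T)
    (h2 : ∀ x, x ∈ T ∨ inv hS x ∈ T) :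
    (Finset.univ.val : Multiset (Rt L P)) = T.val + T.val.map (inv hS) := by
  classical
  have hinj : Function.Injective (inv hS) := fun x y h => by
    have := congrArg (inv hS) h
    rwa [inv_inv, inv_inv] at this
  have h3 : (Finset.univ : Finset (Rt L P)) = T ∪ T.image (inv hS) := by
    ext x
    simp only [Finset.mem_univ, Finset.mem_union, Finset.mem_image, true_iff]
    rcases h2 x with h | h
    · left; exact h
    · right; exact ⟨inv hS x, h, inv_inv hS x⟩
  have h4 : Disjoint T (T.image (inv hS)) := by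
    rw [Finset.disjoint_left]
    intro x hx hx'
    obtain ⟨y, hy, rfl⟩ := Finset.mem_image.1 hx'
    exact h1 y hy hx
  rw [h3, ← Finset.disjUnion_eq_union _ _ h4, Finset.disjUnion_val,
    Finset.image_val_of_injOn (hinj.injOn)]

/-- The integral weights: oddness, relations, and signed sums. -/
theorem exists_weights (ha : 0 < a) (hsl : HasSlopes p a s P) {c : ℚ} (hc : c ≠ 0)
    {Mj : Fin g → ℤ} (hM : ∀ j, 1 - 2 * s j = c * Mj j) [DecidableEq L] :
    ∃ M : Rt L P → ℤ, (∀ x, wt p a ψ x.1 = (a * c : ℝ) * M x) ∧ (∀ x, M (inv hS x) = - M x) ∧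
      (∀ e, (∀ x : Rt L P, (P.map (Int.castRingHom L)).roots.count x.1 = e) →
        e • (Finset.univ.val.map M) = Finset.univ.val.map Mj + Finset.univ.val.map fun j => - Mj j) ∧
      ∀ m : Rt L P → ℤ, (∀ σ : L ≃ₐ[ℚ] L, ∑ x : Rt L P, (m x : ℝ) * wt p a ψ (σ x.1) = 0) →
        ∀ σ : L ≃ₐ[ℚ] L, ∑ x : Rt L P, m (σ • x) * M x = 0 := by
  classical
  choose M0 hM0 using exists_int ψ hS hsl hM
  have hκ : (a * c : ℝ) ≠ 0 := by
    refine mul_ne_zero ?_ (by exact_mod_cast hc)
    exact_mod_cast ha.ne'
  refine ⟨M0, hM0, ?_, ?_, ?_⟩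
  · intro x
    have h1 := wt_inv ψ hS x
    rw [hM0, hM0] at h1
    have h2 : (a * c : ℝ) * (M0 (inv hS x) : ℝ) = (a * c : ℝ) * (-(M0 x : ℝ)) := by rw [h1]; ring
    have h3 := mul_left_cancel₀ hκ h2
    exact_mod_cast h3
  · intro e he
    let M1 : L → ℤ := fun x => if h : (P.map (Int.castRingHom L)).IsRoot x then M0 ⟨x, h⟩ else 0
    have h1 : ∀ x : Rt L P, M1 x.1 = M0 x := fun x => dif_pos x.2
    have h2 := abs_weights ψ hS ha hsl hc hM M1 (fun x => by rw [h1]; exact hM0 x)
    by_cases hne : Nonempty (Rt L P)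
    · obtain ⟨x0⟩ := hne
      rw [roots_eq hS x0, he x0, Multiset.map_nsmul, Multiset.map_map] at h2
      rw [← h2]
      congr 1
      exact Multiset.map_congr rfl fun x _ => (h1 x).symm
    · have h3 : (P.map (Int.castRingHom L)).roots = 0 := by
        apply Multiset.eq_zero_of_forall_notMem
        intro x hx
        exact hne ⟨⟨x, (mem_roots (hmf.out.map _).ne_zero).1 hx⟩⟩
      rw [h3, Multiset.map_zero] at h2
      rw [← h2]
      have h4 : (Finset.univ : Finset (Rt L P)) = ∅ :=
        Finset.univ_eq_empty_iff.2 (not_nonempty_iff.1 hne)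
      rw [h4]
      simp
  · intro m hrel σ
    have h1 := hrel σ⁻¹
    have h2 : ∑ x : Rt L P, (m x : ℝ) * wt p a ψ (σ⁻¹ x.1) =
        (a * c : ℝ) * ((∑ x : Rt L P, m x * M0 (σ⁻¹ • x) : ℤ) : ℝ) := by
      push_cast
      rw [Finset.mul_sum]
      refine Finset.sum_congr rfl fun x _ => ?_
      have h3 := hM0 (σ⁻¹ • x)
      rw [rt_smul] at h3
      rw [h3]; ring
    rw [h2] at h1
    have h3 := (mul_eq_zero.1 h1).resolve_left hκ
    have h4 : ∑ x : Rt L P, m x * M0 (σ⁻¹ • x) = 0 := by exact_mod_cast h3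
    rw [← h4]
    refine (Fintype.sum_bijective (fun x : Rt L P => σ • x) (MulAction.bijective σ) _ _ ?_)
    intro x
    rw [inv_smul_smul]

/-- Prime power dimension: no signed sum of the integral weights is divisible by `l`. -/
theorem noRel_primePower (ha : 0 < a) (hsl : HasSlopes p a s P) {c : ℚ} (hc : c ≠ 0)
    {Mj : Fin g → ℤ} (hM : ∀ j, 1 - 2 * s j = c * Mj j) {l k : ℕ} (hl : l.Prime)
    (hg : g = l ^ k)
    (hsum : ∀ ε : Fin g → ℤ, (∀ j, ε j = 1 ∨ ε j = -1) → ¬ (l : ℤ) ∣ ∑ j, ε j * Mj j) :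
    NoRel p a ψ P := by
  classical
  have := Fact.mk hl
  obtain ⟨M, hMx, hModd, hMm, hrelM⟩ := exists_weights ψ hS ha hsl hc hM
  intro m hm hrel
  by_cases hne : Nonempty (Rt L P)
  swap
  · funext x; exact absurd ⟨x⟩ hne
  obtain ⟨x0⟩ := hne
  set e := (P.map (Int.castRingHom L)).roots.count x0.1 with he
  have hcount : ∀ x : Rt L P, (P.map (Int.castRingHom L)).roots.count x.1 = e := by
    intro x
    obtain ⟨σ, rfl⟩ := hS.conj x0 x
    exact mult_eq σ x0.1
  have hMe := hMm e hcount
  have hfix : ∀ x, inv hS x ≠ x := by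
    intro x hx
    have h1 : ∀ y, M y = 0 := by
      intro y
      obtain ⟨σ, rfl⟩ := hS.conj x y
      have h2 := hModd (σ • x)
      rw [inv_smul, hx] at h2
      linarith
    have h2 : ∀ j, Mj j = 0 := by
      intro j
      have h3 : Mj j ∈ e • (Finset.univ.val.map M) := by
        rw [hMe, Multiset.mem_add]
        left
        exact Multiset.mem_map_of_mem _ (Finset.mem_univ j)
      have h4 := Multiset.mem_of_mem_nsmul h3
      obtain ⟨y, -, hy⟩ := Multiset.mem_map.1 h4
      rw [← hy, h1]
    apply hsum (fun _ => 1) (fun _ => Or.inl rfl)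
    simp [h2]
  -- signed sums over transversals
  have hT : ∀ T : Finset (Rt L P), (∀ x ∈ T, inv hS x ∉ T) → (∀ x, x ∈ T ∨ inv hS x ∈ T) →
      g = e * T.card ∧ ¬ (l : ℤ) ∣ ∑ x ∈ T, M x := by
    intro T h1 h2
    have h3 := transversal hS T h1 h2
    have h4 : e • (T.val.map M) + e • (T.val.map fun x => - M x) =
        Finset.univ.val.map Mj + Finset.univ.val.map fun j => - Mj j := by
      rw [← hMe, h3, Multiset.map_add, Multiset.map_map, nsmul_add]
      congr 2
      exact Multiset.map_congr rfl fun x _ => (hModd x).symm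
    have h5 : (e • (T.val.map M)).map Int.natAbs =
        Finset.univ.val.map fun j => (Mj j).natAbs := by
      apply two_nsmul_inj
      have h6 := congrArg (Multiset.map Int.natAbs) h4
      rw [Multiset.map_add, Multiset.map_add, Multiset.map_map, Multiset.map_map] at h6
      have h7 : (e • (T.val.map fun x => - M x)).map Int.natAbs =
          (e • (T.val.map M)).map Int.natAbs := by
        rw [Multiset.map_nsmul, Multiset.map_nsmul, Multiset.map_map, Multiset.map_map]
        congr 1
        exact Multiset.map_congr rfl fun x _ => by simp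
      rw [h7] at h6
      rw [h6]
      congr 1
      exact Multiset.map_congr rfl fun j _ => by simp
    constructor
    · have h6 := congrArg Multiset.card h5
      rw [Multiset.card_map, Multiset.card_nsmul, Multiset.card_map, Multiset.card_map] at h6
      simpa using h6.symm
    · intro h6
      obtain ⟨ε, hε, h7⟩ := exists_signs g Mj _ h5
      apply hsum ε hε
      rw [← h7, Multiset.sum_nsmul, nsmul_eq_mul]
      exact Dvd.dvd.mul_left h6 _
  -- a transversal
  obtain ⟨f⟩ : Nonempty (Rt L P ≃ Fin (Fintype.card (Rt L P))) := ⟨Fintype.equivFin _⟩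
  let TX : Finset (Rt L P) := Finset.univ.filter fun x => f x < f (inv hS x)
  have hTX1 : ∀ x ∈ TX, inv hS x ∉ TX := by
    intro x hx hx'
    simp only [TX, Finset.mem_filter, Finset.mem_univ, true_and] at hx hx'
    rw [inv_inv] at hx'
    exact lt_asymm hx hx'
  have hTX2 : ∀ x, x ∈ TX ∨ inv hS x ∈ TX := by
    intro x
    simp only [TX, Finset.mem_filter, Finset.mem_univ, true_and, inv_inv]
    exact lt_or_gt_of_ne fun h => hfix x (f.injective h).symm
  obtain ⟨hcT, -⟩ := hT TX hTX1 hTX2
  obtain ⟨k', -, hk'⟩ := (Nat.dvd_prime_pow hl).1 (show TX.card ∣ l ^ k by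
    rw [← hg]; exact ⟨e, by rw [mul_comm]; exact hcT⟩)
  have hcX : (Set.univ : Set (Rt L P)).ncard = 2 * l ^ k' := by
    rw [Set.ncard_univ, Nat.card_eq_fintype_card, ← Finset.card_univ]
    have h3 := congrArg Multiset.card (transversal hS TX hTX1 hTX2)
    rw [Multiset.card_add, Multiset.card_map] at h3
    rw [← hk']
    change Multiset.card (Finset.univ : Finset (Rt L P)).val = _
    rw [h3]
    change TX.card + TX.card = _
    ring
  refine rel_zero (Γ := L ≃ₐ[ℚ] L) (inv hS) (inv_inv hS) (fun γ x => inv_smul hS γ x) hfix hS.conj M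
    hModd l k' Set.univ ⟨x0, Set.mem_univ _⟩ (fun x _ => Set.mem_univ _)
    (fun γ x _ _ y _ => Set.mem_univ _) hcX (fun x hx => absurd (Set.mem_univ _) hx) ?_ m
    (fun x => hm x (inv hS x) rfl) (hrelM m hrel)
  intro T h1 h2 _
  exact (hT T (fun x hx => (h1 x hx).2) fun x => h2 x (Set.mem_univ _)).2

end slopes

end Pool.Agent.Hx18.PP
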