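import Pool.Agent.Hx18.PP.Emb
import Pool.Agent.Q29.EP.Rows
import Pool.Agent.Q29.DP.Types

/-!
# Properties of the families of slope types with rigid weights
-/

set_option autoImplicit false

namespace Pool.Agent.Hx18.PP

open NumberField Module Pool.Agent.H204R3.CM Pool.Agent.H977R3.CM Pool.Agent.Q29.OS
  Pool.Agent.Q29.EP

/-- `Q` holds for all families of slope types with rigid weights, for pairwise independent CM
fields. -/
def ForRigidWeights (Q : TypeProperty) : Prop :=
  ∀ (p : ℕ) [hp : Fact p.Prime] (ν : PadicAlgCl p ≃+* ℂ) (I : Type) [hI : Fintype I]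
    (K : I → Type) [hK : ∀ i, Field (K i)] [hN : ∀ i, NumberField (K i)]
    [hC : ∀ i, IsCMField (K i)] (M : ∀ i, (K i →+* ℂ) → ℤ) (Φ : ∀ i, Set (K i →+* ℂ)),
    PairwiseIndep K → (∀ i φ, M i (ComplexEmbedding.conjugate φ) = M i φ) →
    (∀ i, IsRigid (M i)) → (∀ i, IsCMType (Φ i)) → Q p hp ν I hI K hK hN hC M Φ

theorem forRigidWeights {Q : TypeProperty} (h : WithoutRelations Q) : ForRigidWeights Q := by
  intro p _ ν I _ K _ _ _ M Φ hind hM hrig hΦ
  exact h p ν I K M Φ hind hM hΦ fun i => noRelations_rigid (hM i) (hrig i) (hΦ i)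

end Pool.Agent.Hx18.PP
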