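import Pool.Agent.Hx18.PP.Bal
import Pool.Agent.W518.DN.Density
import Pool.Agent.Hx18.PP.Dom

/-!
# Valuations of the Frobenius eigenvalues
-/

set_option autoImplicit false

open Polynomial NumberField Pool.Agent.W518.TC Pool.Agent.W518.DN

namespace Pool.Agent.Hx18.PP

section weight

variable (p : ℕ) [hpp : Fact p.Prime] (a : ℕ) {L : Type} [Field L]
  (ψ : L →+* AlgebraicClosure ℚ_[p])

/-- The normalised valuation `a - 2 v(x)`. -/
noncomputable def wt (x : L) : ℝ := (a : ℝ) + 2 * Real.logb p (nv p (ψ x))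

variable {p a}

lemma one_lt_p : (1 : ℝ) < p := by exact_mod_cast hpp.out.one_lt

lemma nv_pos {x : L} (hx : x ≠ 0) : 0 < nv p (ψ x) :=
  (nv p).pos ((map_ne_zero ψ).2 hx)

lemma nv_q : nv p (ψ ((p ^ a : ℕ) : L)) = (p : ℝ) ^ (-(a : ℝ)) := by
  have h1 : ψ ((p ^ a : ℕ) : L) = algebraMap ℚ_[p] (AlgebraicClosure ℚ_[p]) ((p : ℚ_[p]) ^ a) := by
    rw [map_natCast]; simp
  rw [h1, nv_algebraMap, norm_pow, Padic.norm_p, Real.rpow_neg (by positivity), inv_pow,
    Real.rpow_natCast]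

lemma logb_q : Real.logb p (nv p (ψ ((p ^ a : ℕ) : L))) = -(a : ℝ) := by
  rw [nv_q]
  exact Real.logb_rpow (by linarith [one_lt_p (p := p)]) (one_lt_p (p := p)).ne'

lemma wt_div {x : L} (hx : x ≠ 0) [CharZero L] : wt p a ψ (((p ^ a : ℕ) : L) / x) = - wt p a ψ x := by
  have hq : ((p ^ a : ℕ) : L) ≠ 0 := by exact_mod_cast pow_ne_zero _ hpp.out.ne_zero
  unfold wt
  rw [map_div₀, map_div₀, Real.logb_div (nv_pos ψ hq).ne' (nv_pos ψ hx).ne', logb_q]
  ring

lemma wt_SS {x : L} (hx : x ≠ 0) (h : SS (p ^ a) x) : wt p a ψ x = 0 := by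
  obtain ⟨t, ht, h1⟩ := h
  have h2 := congrArg (fun y => Real.logb p (nv p (ψ y))) h1
  simp only [map_pow] at h2
  rw [Real.logb_pow, Real.logb_pow, Real.logb_pow, logb_q] at h2
  have ht' : (t : ℝ) ≠ 0 := by exact_mod_cast ht.ne'
  have h3 : (2 : ℝ) * Real.logb p (nv p (ψ x)) = -(a : ℝ) := by
    have h4 : (t : ℝ) * (2 * Real.logb p (nv p (ψ x))) = t * (-(a : ℝ)) := by
      push_cast at h2
      linarith
    exact mul_left_cancel₀ ht' h4
  unfold wt
  rw [h3]; ring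

/-- The weights of the elements of a relation have the sum zero. -/
lemma wt_prod [CharZero L] {R : Multiset L} {m s : ℕ} (hs : 0 < s) (hcard : Multiset.card R = 2 * m)
    (h0 : ∀ x ∈ R, x ≠ 0) (h : R.prod ^ s = (((p ^ a : ℕ) : L) ^ m) ^ s) :
    (R.map (wt p a ψ)).sum = 0 := by
  have h1 : ∀ S : Multiset L, (∀ x ∈ S, x ≠ 0) →
      (S.map (wt p a ψ)).sum = a * Multiset.card S + 2 * Real.logb p (nv p (ψ S.prod)) := by
    intro S
    induction S using Multiset.induction_on with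
    | empty => intro _; simp
    | cons x S ih =>
      intro hS
      have hx := hS x (Multiset.mem_cons_self _ _)
      have hS' : ∀ y ∈ S, y ≠ 0 := fun y hy => hS y (Multiset.mem_cons_of_mem hy)
      have hprod : S.prod ≠ 0 := by
        rw [Ne, Multiset.prod_eq_zero_iff]
        exact fun h => hS' 0 h rfl
      rw [Multiset.map_cons, Multiset.sum_cons, ih hS', Multiset.prod_cons, map_mul, map_mul,
        Real.logb_mul (nv_pos ψ hx).ne' (nv_pos ψ hprod).ne', Multiset.card_cons]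
      unfold wt
      push_cast
      ring
  rw [h1 R h0, hcard]
  have h2 := congrArg (fun y => Real.logb p (nv p (ψ y))) h
  simp only [map_pow] at h2
  rw [Real.logb_pow, Real.logb_pow, Real.logb_pow, logb_q] at h2
  have hs' : (s : ℝ) ≠ 0 := by exact_mod_cast hs.ne'
  have h3 := mul_left_cancel₀ hs' h2
  rw [h3]
  push_cast
  ring

end weight

section rel

variable (p : ℕ) [hpp : Fact p.Prime] (a : ℕ) {L : Type} [Field L] [NumberField L]
  (ψ : L →+* AlgebraicClosure ℚ_[p])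

/-- The roots of `P` in `L`. -/
abbrev Rt (L : Type) [Field L] (P : ℤ[X]) : Type :=
  {x : L // ((P.map (Int.castRingHom L))).IsRoot x}

lemma root_gal {P : ℤ[X]} (σ : L ≃ₐ[ℚ] L) {x : L} (hx : ((P.map (Int.castRingHom L))).IsRoot x) :
    ((P.map (Int.castRingHom L))).IsRoot (σ x) := by
  have h2 : (P.map (Int.castRingHom L)) = (P.map (Int.castRingHom L)).map (σ : L →+* L) := by
    rw [Polynomial.map_map]; congr 1; exact RingHom.ext_int _ _
  rw [h2]
  exact hx.map

/-- The roots are permuted by the Galois group. -/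
noncomputable instance rtAct (P : ℤ[X]) : MulAction (L ≃ₐ[ℚ] L) (Rt L P) where
  smul σ x := ⟨σ x.1, root_gal σ x.2⟩
  one_smul _ := rfl
  mul_smul _ _ _ := rfl

lemma rt_smul {P : ℤ[X]} (σ : L ≃ₐ[ℚ] L) (x : Rt L P) : (σ • x).1 = σ x.1 := rfl

noncomputable instance rtFin {P : ℤ[X]} [hm : Fact P.Monic] : Fintype (Rt L P) := by
  classical
  exact Fintype.subtype (P.map (Int.castRingHom L)).roots.toFinset (fun x => by
    rw [Multiset.mem_toFinset, mem_roots (hm.out.map _).ne_zero])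

/-- The roots come in pairs. -/
def Sym (q : ℕ) (L : Type) [Field L] (P : ℤ[X]) : Prop :=
  ∀ π : L, ((P.map (Int.castRingHom L))).IsRoot π →
    π ≠ 0 ∧ ((P.map (Int.castRingHom L))).IsRoot ((q : L) / π)

/-- There is no relation between the weights of the roots of `P`. -/
def NoRel (P : ℤ[X]) [Fintype (Rt L P)] : Prop :=
  ∀ m : Rt L P → ℤ, (∀ x y : Rt L P, y.1 = ((p ^ a : ℕ) : L) / x.1 → m y = - m x) →
    (∀ σ : L ≃ₐ[ℚ] L, ∑ x : Rt L P, (m x : ℝ) * wt p a ψ (σ x.1) = 0) → m = 0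

end rel

section bal

variable {p : ℕ} [hpp : Fact p.Prime] {a : ℕ} {L : Type} [Field L] [NumberField L]
  [DecidableEq L] (ψ : L →+* AlgebraicClosure ℚ_[p]) {κ : Type} [Fintype κ] {P : κ → ℤ[X]}

/-- Relations between all roots are balanced. -/
theorem balanced (hPm : ∀ i, (P i).Monic) (hsym : ∀ i, Sym (p ^ a) L (P i))
    [∀ i, Fintype (Rt L (P i))]
    (hno : ∀ i, NoRel p a ψ (P i))
    (hflip : ∀ i j, i ≠ j → ∀ (x y : L), ((P i).map (Int.castRingHom L)).IsRoot x →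
      ((P j).map (Int.castRingHom L)).IsRoot y →
        ∃ τ : L ≃ₐ[ℚ] L, τ x = x ∧ τ y = ((p ^ a : ℕ) : L) / y)
    (R : Multiset L) (m s : ℕ) (hcard : Multiset.card R = 2 * m)
    (hR : ∀ π ∈ R, (∃ i, ((P i).map (Int.castRingHom L)).IsRoot π) ∨ (π ≠ 0 ∧ SS (p ^ a) π))
    (hs : 0 < s) (hprod : R.prod ^ s = (((p ^ a : ℕ) : L) ^ m) ^ s) (i : κ) (π : L)
    (hπ : ((P i).map (Int.castRingHom L)).IsRoot π) :
    R.count π = R.count (((p ^ a : ℕ) : L) / π) := by
  classical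
  set q : L := ((p ^ a : ℕ) : L) with hq
  have hq0 : q ≠ 0 := by rw [hq]; exact_mod_cast pow_ne_zero _ hpp.out.ne_zero
  have hσq : ∀ σ : L ≃ₐ[ℚ] L, σ q = q := fun σ => by rw [hq]; exact map_natCast σ _
  set S : Finset L := Finset.univ.biUnion fun j => ((P j).map (Int.castRingHom L)).roots.toFinset
    with hS
  have hmS : ∀ x, x ∈ S ↔ ∃ j, ((P j).map (Int.castRingHom L)).IsRoot x := by
    intro x
    simp only [hS, Finset.mem_biUnion, Finset.mem_univ, true_and, Multiset.mem_toFinset,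
      mem_roots ((hPm _).map _).ne_zero]
  have hR0 : ∀ x ∈ R, x ≠ 0 := by
    intro x hx
    rcases hR x hx with ⟨j, hj⟩ | h
    · exact (hsym j x hj).1
    · exact h.1
  have hSS : ∀ (σ : L ≃ₐ[ℚ] L) {x : L}, SS (p ^ a) x → SS (p ^ a) (σ x) := by
    rintro σ x ⟨t, ht, h⟩
    refine ⟨t, ht, ?_⟩
    rw [← map_pow, ← map_pow, h, map_pow]
    congr 1
    exact map_natCast σ _
  set c : L → ℤ := fun x => (R.count x : ℤ) - (R.count (q / x) : ℤ) with hc
  -- the relation for `σ`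
  have h1 : ∀ σ : L ≃ₐ[ℚ] L, ∑ x ∈ S, (R.count x : ℝ) * wt p a ψ (σ x) = 0 := by
    intro σ
    have h2 : (R.map fun x => wt p a ψ (σ x)).sum = 0 := by
      have h3 := wt_prod (a := a) ψ (R := R.map σ) (m := m) (s := s) hs (by
          rw [Multiset.card_map, hcard]) (by
          intro x hx
          obtain ⟨y, hy, rfl⟩ := Multiset.mem_map.1 hx
          exact (map_ne_zero σ).2 (hR0 y hy)) (by
          have h4 := congrArg σ hprod
          rw [map_pow, map_pow, map_pow] at h4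
          rw [← hq]
          rw [hσq] at h4
          rw [← h4, map_multiset_prod])
      rwa [Multiset.map_map] at h3
    rw [Finset.sum_multiset_map_count] at h2
    have h3 : ∑ x ∈ S, (R.count x : ℝ) * wt p a ψ (σ x) =
        ∑ x ∈ S ∪ R.toFinset, (R.count x : ℝ) * wt p a ψ (σ x) := by
      refine Finset.sum_subset Finset.subset_union_left fun x hx hxS => ?_
      rw [Finset.mem_union] at hx
      have hxR : x ∈ R := Multiset.mem_toFinset.1 (hx.resolve_left hxS)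
      rcases hR x hxR with ⟨j, hj⟩ | h
      · exact absurd ((hmS x).2 ⟨j, hj⟩) hxS
      · rw [wt_SS ψ ((map_ne_zero σ).2 h.1) (hSS σ h.2), mul_zero]
    have h4 : ∑ x ∈ R.toFinset, R.count x • wt p a ψ (σ x) =
        ∑ x ∈ S ∪ R.toFinset, (R.count x : ℝ) * wt p a ψ (σ x) := by
      rw [Finset.sum_congr rfl fun x _ => nsmul_eq_mul (R.count x) (wt p a ψ (σ x))]
      refine Finset.sum_subset Finset.subset_union_right fun x hx hxR => ?_
      rw [Multiset.mem_toFinset] at hxR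
      rw [Multiset.count_eq_zero_of_notMem hxR]
      simp
    rw [h3, ← h4, h2]
  have hinv : ∀ x ∈ S, q / x ∈ S := by
    intro x hx
    obtain ⟨j, hj⟩ := (hmS x).1 hx
    exact (hmS _).2 ⟨j, (hsym j x hj).2⟩
  have hS0 : ∀ x ∈ S, x ≠ 0 := by
    intro x hx
    obtain ⟨j, hj⟩ := (hmS x).1 hx
    exact (hsym j x hj).1
  have hwinv : ∀ (σ : L ≃ₐ[ℚ] L), ∀ x, x ≠ 0 → wt p a ψ (σ (q / x)) = - wt p a ψ (σ x) := by
    intro σ x hx
    rw [map_div₀, hσq, hq, wt_div ψ ((map_ne_zero σ).2 hx)]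
  have h2 : ∀ σ : L ≃ₐ[ℚ] L, ∑ x ∈ S, (c x : ℝ) * wt p a ψ (σ x) = 0 := by
    intro σ
    have h3 : ∑ x ∈ S, (R.count (q / x) : ℝ) * wt p a ψ (σ x) =
        ∑ x ∈ S, (R.count x : ℝ) * wt p a ψ (σ (q / x)) := by
      refine Finset.sum_nbij' (fun x => q / x) (fun x => q / x) hinv hinv ?_ ?_ ?_
      · intro x hx; exact div_div_cancel₀ hq0
      · intro x hx; exact div_div_cancel₀ hq0
      · intro x hx
        rw [div_div_cancel₀ hq0]
    have h4 : ∑ x ∈ S, (c x : ℝ) * wt p a ψ (σ x) = ∑ x ∈ S, (R.count x : ℝ) * wt p a ψ (σ x) -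
        ∑ x ∈ S, (R.count (q / x) : ℝ) * wt p a ψ (σ x) := by
      rw [← Finset.sum_sub_distrib]
      refine Finset.sum_congr rfl fun x _ => ?_
      simp only [hc]
      push_cast
      ring
    rw [h4, h3, h1]
    have h5 : ∑ x ∈ S, (R.count x : ℝ) * wt p a ψ (σ (q / x)) =
        - ∑ x ∈ S, (R.count x : ℝ) * wt p a ψ (σ x) := by
      rw [← Finset.sum_neg_distrib]
      refine Finset.sum_congr rfl fun x hx => ?_
      rw [hwinv σ x (hS0 x hx)]; ring
    rw [h5, h1]; simp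
  -- decouple
  set Si : Finset L := ((P i).map (Int.castRingHom L)).roots.toFinset with hSi
  have hmSi : ∀ x, x ∈ Si ↔ ((P i).map (Int.castRingHom L)).IsRoot x := by
    intro x
    rw [hSi, Multiset.mem_toFinset, mem_roots ((hPm _).map _).ne_zero]
  have hSiS : Si ⊆ S := fun x hx => (hmS x).2 ⟨i, (hmSi x).1 hx⟩
  have h3 : ∀ σ : L ≃ₐ[ℚ] L, ∑ x ∈ Si, (c x : ℝ) * wt p a ψ (σ x) = 0 := by
    intro σ
    refine decouple (Γ := L ≃ₐ[ℚ] L) (A := L) (wt p a ψ) (fun x => (c x : ℝ)) Si (S \ Si) ?_ ?_ σ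
    · intro x hx y hy
      obtain ⟨hyS, hyi⟩ := Finset.mem_sdiff.1 hy
      obtain ⟨j, hj⟩ := (hmS y).1 hyS
      have hij : i ≠ j := by
        rintro rfl
        exact hyi ((hmSi y).2 hj)
      obtain ⟨τ, hτ1, hτ2⟩ := hflip i j hij x y ((hmSi x).1 hx) hj
      refine ⟨τ, fun σ => ?_⟩
      have e1 : (σ * τ) • x = σ x := by
        change σ (τ x) = σ x
        rw [hτ1]
      have e2 : (σ * τ) • y = σ (q / y) := by
        change σ (τ y) = _
        rw [hτ2]
      rw [e1, e2, hwinv σ y (hS0 y hyS)]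
      change wt p a ψ (σ x) * -wt p a ψ (σ y) = -(wt p a ψ (σ x) * wt p a ψ (σ y))
      ring
    · intro σ
      have h4 := h2 σ
      rw [← Finset.sum_sdiff hSiS, add_comm] at h4
      exact h4
  -- no relation
  have h4 := hno i (fun x => c x.1) (by
    intro x y hxy
    have hx0 := (hsym i x.1 x.2).1
    simp only [hc]
    rw [hxy, ← hq, div_div_cancel₀ hq0]
    ring) (by
    intro σ
    have h5 := h3 σ
    rw [← h5]
    refine Finset.sum_bij (fun (x : Rt L (P i)) _ => x.1) ?_ ?_ ?_ ?_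
    · intro x _; exact (hmSi _).2 x.2
    · intro x _ y _ h; exact Subtype.ext h
    · intro x hx; exact ⟨⟨x, (hmSi x).1 hx⟩, Finset.mem_univ _, rfl⟩
    · intro x _; rfl)
  have h5 := congrFun h4 ⟨π, hπ⟩
  simp only [hc, Pi.zero_apply] at h5
  omega

end bal

end Pool.Agent.Hx18.PP
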