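import Mathlib

/-!
# Relations modulo a prime number and Sylow subgroups
-/

set_option autoImplicit false

namespace Pool.Agent.Hx18.PP

open MulAction Pointwise

section syl

variable {H Y : Type*} [Group H] [Finite H] [MulAction H Y]

/-- A Sylow subgroup is transitive on orbits of prime power length. -/
theorem sylow_orbit (l k : ℕ) [hl : Fact l.Prime] (s : Y) (hs : (orbit H s).ncard = l ^ k)
    (P : Sylow l H) : orbit (P : Subgroup H) s = orbit H s := by
  have h1 : (stabilizer H s).index = l ^ k := by rw [index_stabilizer, hs]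
  have h2 : (stabilizer (P : Subgroup H) s).index = (orbit (P : Subgroup H) s).ncard :=
    index_stabilizer ..
  have h3 : stabilizer (P : Subgroup H) s = (stabilizer H s).subgroupOf (P : Subgroup H) := by
    ext x; rfl
  have h4 : (stabilizer H s).relIndex (P : Subgroup H) * (P : Subgroup H).index =
      (stabilizer H s ⊓ (P : Subgroup H)).index := by
    rw [← Subgroup.inf_relIndex_right]
    exact Subgroup.relIndex_mul_index inf_le_right
  have h5 : l ^ k ∣ (stabilizer H s ⊓ (P : Subgroup H)).index := by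
    rw [← h1]
    exact Subgroup.index_dvd_of_le inf_le_left
  rw [← h4] at h5
  have h6 : Nat.Coprime (l ^ k) (P : Subgroup H).index := by
    apply Nat.Coprime.pow_left
    rw [Nat.Prime.coprime_iff_not_dvd hl.out]
    exact P.not_dvd_index
  have h7 : l ^ k ∣ (orbit (P : Subgroup H) s).ncard := by
    rw [← h2, h3]
    exact h6.dvd_of_dvd_mul_right h5
  have hfinH : (orbit H s).Finite := by
    have : Finite (orbit H s) := Finite.of_surjective (fun g : H => (⟨g • s, mem_orbit _ _⟩ :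
      orbit H s)) (by rintro ⟨_, g, rfl⟩; exact ⟨g, rfl⟩)
    exact Set.toFinite _
  have hsub : orbit (P : Subgroup H) s ⊆ orbit H s := by
    rintro _ ⟨g, rfl⟩
    exact ⟨g.1, rfl⟩
  have hpos : 0 < (orbit (P : Subgroup H) s).ncard := by
    rw [Set.ncard_pos (hfinH.subset hsub)]
    exact ⟨s, mem_orbit_self s⟩
  exact Set.eq_of_subset_of_ncard_le hsub (by rw [hs]; exact Nat.le_of_dvd hpos h7) hfinH

end syl

section main

variable {Γ X : Type} [Group Γ] [Finite Γ] [Fintype X] [MulAction Γ X]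

/-- The number of pairs. -/
theorem card_pairs (ι : X → X) (hι : ∀ x, ι (ι x) = x) (hfix : ∀ x, ι x ≠ x) (B : Set X)
    (hBι : ∀ x ∈ B, ι x ∈ B) :
    B.ncard = 2 * ((fun x => ({x, ι x} : Set X)) '' B).ncard := by
  classical
  have hBf : B.Finite := Set.toFinite B
  set F : Finset X := hBf.toFinset with hF
  set pr : X → Set X := fun x => {x, ι x} with hpr
  have h1 : (pr '' B).ncard = (F.image pr).card := by
    rw [← Set.ncard_coe_finset, Finset.coe_image, hF, Set.Finite.coe_toFinset]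
  have h2 : B.ncard = F.card := by
    rw [hF]; exact Set.ncard_eq_toFinset_card B hBf
  rw [h1, h2, Finset.card_eq_sum_card_image pr F]
  rw [Finset.sum_congr rfl (g := fun _ => 2)]
  · simp [mul_comm]
  · intro s hs
    obtain ⟨x, hx, rfl⟩ := Finset.mem_image.1 hs
    have hxB : x ∈ B := hBf.mem_toFinset.1 hx
    have h3 : F.filter (fun y => pr y = pr x) = {x, ι x} := by
      ext y
      simp only [Finset.mem_filter, Finset.mem_insert, Finset.mem_singleton, hF,
        Set.Finite.mem_toFinset]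
      constructor
      · rintro ⟨-, hy⟩
        have : y ∈ pr x := by rw [← hy]; simp [hpr]
        simpa [hpr] using this
      · rintro (rfl | rfl)
        · exact ⟨hxB, rfl⟩
        · refine ⟨hBι _ hxB, ?_⟩
          simp only [hpr, hι]
          exact Set.pair_comm _ _
    rw [h3, Finset.card_pair (hfix x).symm]

/-- There are no relations. -/
theorem rel_zero (ι : X → X) (hι : ∀ x, ι (ι x) = x) (hιs : ∀ (γ : Γ) x, ι (γ • x) = γ • ι x)
    (hfix : ∀ x, ι x ≠ x) (htr : ∀ x y : X, ∃ γ : Γ, γ • x = y)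
    (M : X → ℤ) (hM : ∀ x, M (ι x) = -M x)
    (l k : ℕ) [hl : Fact l.Prime] (B : Set X) (hB0 : B.Nonempty) (hBι : ∀ x ∈ B, ι x ∈ B)
    (hblock : ∀ γ : Γ, ∀ x ∈ B, γ • x ∈ B → ∀ y ∈ B, γ • y ∈ B)
    (hcard : B.ncard = 2 * l ^ k) (hout : ∀ x, x ∉ B → (l : ℤ) ∣ M x)
    (hT : ∀ T : Finset X, (∀ x ∈ T, x ∈ B ∧ ι x ∉ T) → (∀ x ∈ B, x ∈ T ∨ ι x ∈ T) →
      (l = 2 ∨ ∃ (P : Subgroup Γ) (x : X), (T : Set X) = orbit P x) → ¬ (l : ℤ) ∣ ∑ x ∈ T, M x)
    (m : X → ℤ) (hm : ∀ x, m (ι x) = - m x) (hrel : ∀ γ : Γ, ∑ x, m (γ • x) * M x = 0) :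
    m = 0 := by
  classical
  by_contra hm0
  obtain ⟨x0, hx0⟩ : ∃ x, m x ≠ 0 := by
    by_contra hcon
    push Not at hcon
    exact hm0 (funext hcon)
  -- divide by the greatest common divisor
  obtain ⟨m', hmm', hgcd⟩ := Finset.extract_gcd (s := Finset.univ) m ⟨x0, Finset.mem_univ _⟩
  set d := Finset.univ.gcd m with hd
  have hd0 : d ≠ 0 := by
    intro h
    apply hx0
    rw [hmm' x0 (Finset.mem_univ _), h, zero_mul]
  have hm' : ∀ x, m' (ι x) = - m' x := by
    intro x
    have h1 := hm x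
    rw [hmm' _ (Finset.mem_univ _), hmm' x (Finset.mem_univ _)] at h1
    have h2 : d * m' (ι x) = d * (- m' x) := by rw [h1]; ring
    exact mul_left_cancel₀ hd0 h2
  have hrel' : ∀ γ : Γ, ∑ x, m' (γ • x) * M x = 0 := by
    intro γ
    have h1 := hrel γ
    have h2 : ∑ x, m (γ • x) * M x = d * ∑ x, m' (γ • x) * M x := by
      rw [Finset.mul_sum]
      refine Finset.sum_congr rfl fun x _ => ?_
      rw [hmm' _ (Finset.mem_univ _)]; ring
    rw [h2] at h1
    exact (mul_eq_zero.1 h1).resolve_left hd0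
  obtain ⟨x1, hx1⟩ : ∃ x, ¬ (l : ℤ) ∣ m' x := by
    by_contra hcon
    push Not at hcon
    have h1 : (l : ℤ) ∣ Finset.univ.gcd m' := Finset.dvd_gcd fun x _ => hcon x
    rw [hgcd] at h1
    have h2 : (l : ℕ) ∣ 1 := by exact_mod_cast h1
    exact hl.out.one_lt.ne' (Nat.dvd_one.1 h2)
  -- the stabilizer of the block
  set H : Subgroup Γ := stabilizer Γ B with hH
  have hHB : ∀ γ ∈ H, ∀ y ∈ B, γ • y ∈ B := by
    intro γ hγ y hy
    have h1 : γ • B = B := hγ
    rw [← h1]
    exact Set.smul_mem_smul_set hy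
  have hBH : ∀ γ : Γ, (∃ x ∈ B, γ • x ∈ B) → γ ∈ H := by
    rintro γ ⟨x, hx, hγx⟩
    rw [hH, mem_stabilizer_iff]
    refine Set.Subset.antisymm ?_ ?_
    · rintro _ ⟨y, hy, rfl⟩
      exact hblock γ x hx hγx y hy
    · intro y hy
      refine ⟨γ⁻¹ • y, ?_, by simp⟩
      refine hblock γ⁻¹ (γ • x) hγx ?_ y hy
      simpa using hx
  -- the functions modulo `l` on the block
  let N : Set (X → ℤ) := {n | (∀ x, n (ι x) = - n x) ∧ ∀ γ : Γ, ∑ x, n (γ • x) * M x = 0}
  have hNadd : ∀ n ∈ N, ∀ n' ∈ N, n + n' ∈ N := by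
    rintro n ⟨h1, h2⟩ n' ⟨h3, h4⟩
    refine ⟨fun x => ?_, fun γ => ?_⟩
    · simp only [Pi.add_apply, h1, h3]; ring
    · have h5 : ∀ x, (n + n') (γ • x) * M x = n (γ • x) * M x + n' (γ • x) * M x := by
        intro x; simp only [Pi.add_apply]; ring
      rw [Finset.sum_congr rfl fun x _ => h5 x, Finset.sum_add_distrib, h2, h4, add_zero]
  have hNneg : ∀ n ∈ N, -n ∈ N := by
    rintro n ⟨h1, h2⟩
    refine ⟨fun x => ?_, fun γ => ?_⟩
    · simp only [Pi.neg_apply, h1]
    · have h5 : ∀ x, (-n) (γ • x) * M x = - (n (γ • x) * M x) := by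
        intro x; simp only [Pi.neg_apply]; ring
      rw [Finset.sum_congr rfl fun x _ => h5 x, Finset.sum_neg_distrib, h2, neg_zero]
  have hNtr : ∀ n ∈ N, ∀ γ : Γ, (fun x => n (γ • x)) ∈ N := by
    rintro n ⟨h1, h2⟩ γ
    refine ⟨fun x => ?_, fun γ' => ?_⟩
    · change n (γ • ι x) = - n (γ • x)
      rw [← hιs, h1]
    · have h5 := h2 (γ * γ')
      simpa only [mul_smul] using h5
  let W : AddSubgroup (X → ZMod l) :=
    { carrier := {f | ∃ n ∈ N, ∀ x, f x = if x ∈ B then ((n x : ℤ) : ZMod l) else 0}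
      add_mem' := by
        rintro f f' ⟨n, hn, h1⟩ ⟨n', hn', h2⟩
        refine ⟨n + n', hNadd n hn n' hn', fun x => ?_⟩
        rw [Pi.add_apply, h1, h2]
        split_ifs
        · push_cast [Pi.add_apply]; rfl
        · simp
      zero_mem' := ⟨0, ⟨fun x => by simp, fun γ => by simp⟩, fun x => by simp⟩
      neg_mem' := by
        rintro f ⟨n, hn, h1⟩
        refine ⟨-n, hNneg n hn, fun x => ?_⟩
        rw [Pi.neg_apply, h1]
        split_ifs
        · push_cast [Pi.neg_apply]; rfl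
        · simp }
  have hWst : ∀ (γ : H) (f : W), (fun x => f.1 (γ⁻¹ • x)) ∈ W := by
    rintro γ ⟨f, n, hn, h1⟩
    refine ⟨fun x => n (((γ⁻¹ : H) : Γ) • x), hNtr n hn _, fun x => ?_⟩
    change f (((γ⁻¹ : H) : Γ) • x) = _
    rw [h1]
    have h2 : ((((γ⁻¹ : H) : Γ) • x) ∈ B) ↔ x ∈ B := by
      constructor
      · intro h3
        have h4 := hHB γ.1 γ.2 _ h3
        simpa using h4
      · exact hHB _ (γ⁻¹ : H).2 x
    simp only [h2]
  let P : Sylow l H := default
  let act : MulAction (P : Subgroup H) W :=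
    { smul := fun γ f => ⟨fun x => f.1 (((γ : H))⁻¹ • x), hWst γ f⟩
      one_smul := by
        intro f
        apply Subtype.ext
        funext x
        change f.1 ((((1 : (P : Subgroup H)) : H))⁻¹ • x) = f.1 x
        simp
      mul_smul := by
        intro γ γ' f
        apply Subtype.ext
        funext x
        change f.1 ((((γ * γ' : (P : Subgroup H)) : H))⁻¹ • x) = f.1 (((γ' : H))⁻¹ • (((γ : H))⁻¹ • x))
        rw [Subgroup.coe_mul, mul_inv_rev, mul_smul] }
  have hact : ∀ (γ : (P : Subgroup H)) (f : W) (x : X), (γ • f).1 x = f.1 (((γ : H))⁻¹ • x) :=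
    fun _ _ _ => rfl
  -- a nonzero element
  obtain ⟨y1, hy1⟩ := hB0
  obtain ⟨γ1, hγ1⟩ := htr y1 x1
  let f1 : W := ⟨fun x => if x ∈ B then ((m' (γ1 • x) : ℤ) : ZMod l) else 0,
    fun x => m' (γ1 • x), hNtr m' ⟨hm', hrel'⟩ γ1, fun x => rfl⟩
  have hf1 : f1 ≠ 0 := by
    intro h
    have h1 : f1.1 y1 = 0 := by rw [h]; rfl
    have h2 : f1.1 y1 = ((m' x1 : ℤ) : ZMod l) := by
      change (if y1 ∈ B then ((m' (γ1 • y1) : ℤ) : ZMod l) else 0) = _
      rw [if_pos hy1, hγ1]
    rw [h2, ZMod.intCast_zmod_eq_zero_iff_dvd] at h1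
    exact hx1 h1
  have hdvd : l ∣ Nat.card W := by
    have h1 : addOrderOf f1 ∣ Nat.card W := addOrderOf_dvd_natCard f1
    have h2 : addOrderOf f1 = l := by
      refine addOrderOf_eq_prime ?_ hf1
      apply Subtype.ext
      funext x
      change (l • f1.1) x = 0
      rw [Pi.smul_apply, nsmul_eq_mul]
      simp
    rwa [h2] at h1
  have hfixed0 : (0 : W) ∈ fixedPoints (P : Subgroup H) W := by
    intro γ
    apply Subtype.ext
    funext x
    rw [hact]
    rfl
  obtain ⟨f, hffix, hf0⟩ := P.2.exists_fixed_point_of_prime_dvd_card_of_fixed_point W hdvd hfixed0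
  obtain ⟨n, ⟨hn1, hn2⟩, hfn⟩ := f.2
  have hfP : ∀ (γ : (P : Subgroup H)) (x : X), f.1 (γ • x) = f.1 x := by
    intro γ x
    have h1 := hffix γ
    have h2 : (γ • f).1 (γ • x) = f.1 (γ • x) := by rw [h1]
    rw [hact] at h2
    rw [← h2]
    have h3 : ((γ : H))⁻¹ • (γ • x) = x := inv_smul_smul (γ : H) x
    rw [h3]
  have hfB : ∀ x, x ∉ B → f.1 x = 0 := by
    intro x hx
    rw [hfn, if_neg hx]
  have hfB' : ∀ x, x ∈ B → f.1 x = ((n x : ℤ) : ZMod l) := by
    intro x hx
    rw [hfn, if_pos hx]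
  obtain ⟨y0, hy0B, hy0⟩ : ∃ y0 ∈ B, f.1 y0 ≠ 0 := by
    by_contra hcon
    push Not at hcon
    apply hf0
    apply Subtype.ext
    funext x
    by_cases hx : x ∈ B
    · exact (hcon x hx).symm
    · exact (hfB x hx).symm
  have hfι : ∀ x ∈ B, f.1 (ι x) = - f.1 x := by
    intro x hx
    rw [hfB' _ (hBι x hx), hfB' x hx, hn1]
    push_cast
    rfl
  -- the Sylow group is transitive on pairs
  have horb : orbit H ({y0, ι y0} : Set X) = (fun x => ({x, ι x} : Set X)) '' B := by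
    ext s
    constructor
    · rintro ⟨γ, rfl⟩
      refine ⟨γ • y0, hHB γ.1 γ.2 y0 hy0B, ?_⟩
      change ({γ.1 • y0, ι (γ.1 • y0)} : Set X) = γ.1 • ({y0, ι y0} : Set X)
      rw [hιs, Set.smul_set_insert, Set.smul_set_singleton]
    · rintro ⟨y, hy, rfl⟩
      obtain ⟨γ, hγ⟩ := htr y0 y
      have hγH : γ ∈ H := hBH γ ⟨y0, hy0B, by rw [hγ]; exact hy⟩
      refine ⟨⟨γ, hγH⟩, ?_⟩
      change γ • ({y0, ι y0} : Set X) = ({y, ι y} : Set X)
      rw [Set.smul_set_insert, Set.smul_set_singleton, ← hιs, hγ]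
  have hcard' : (orbit H ({y0, ι y0} : Set X)).ncard = l ^ k := by
    rw [horb]
    have h1 := card_pairs ι hι hfix B hBι
    rw [hcard] at h1
    omega
  have hsyl := sylow_orbit l k ({y0, ι y0} : Set X) hcard' P
  have hpair : ∀ y ∈ B, ∃ γ : (P : Subgroup H), γ • y0 = y ∨ γ • y0 = ι y := by
    intro y hy
    have h1 : ({y, ι y} : Set X) ∈ orbit (P : Subgroup H) ({y0, ι y0} : Set X) := by
      rw [hsyl, horb]
      exact ⟨y, hy, rfl⟩
    obtain ⟨γ, hγ⟩ := h1
    refine ⟨γ, ?_⟩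
    have h2 : γ • y0 ∈ ({y, ι y} : Set X) := by
      rw [← hγ]
      exact Set.smul_mem_smul_set (by simp)
    simpa using h2
  -- a transversal
  have hval : ∀ y ∈ B, f.1 y = f.1 y0 ∨ f.1 y = - f.1 y0 := by
    intro y hy
    obtain ⟨γ, h1 | h1⟩ := hpair y hy
    · left; rw [← h1, hfP]
    · right
      have h2 : f.1 (ι y) = f.1 y0 := by rw [← h1, hfP]
      rw [hfι y hy] at h2
      rw [← h2, neg_neg]
  obtain ⟨e⟩ : Nonempty (X ≃ Fin (Fintype.card X)) := ⟨Fintype.equivFin X⟩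
  let TX : Finset X := Finset.univ.filter fun x => e x < e (ι x)
  have hTX1 : ∀ x ∈ TX, ι x ∉ TX := by
    intro x hx hx'
    simp only [TX, Finset.mem_filter, Finset.mem_univ, true_and] at hx hx'
    rw [hι] at hx'
    exact lt_asymm hx hx'
  have hTX2 : ∀ x, x ∈ TX ∨ ι x ∈ TX := by
    intro x
    simp only [TX, Finset.mem_filter, Finset.mem_univ, true_and, hι]
    exact lt_or_gt_of_ne fun h => hfix x (e.injective h).symm
  obtain ⟨T, hT1, hT2, hT3, hTf⟩ : ∃ T : Finset X, (∀ x ∈ T, x ∈ B ∧ ι x ∉ T) ∧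
      (∀ x ∈ B, x ∈ T ∨ ι x ∈ T) ∧
      (l = 2 ∨ ∃ (P : Subgroup Γ) (x : X), (T : Set X) = orbit P x) ∧
      ∀ x ∈ T, f.1 x = f.1 y0 := by
    by_cases hl2 : l = 2
    · refine ⟨TX.filter (· ∈ B), ?_, ?_, Or.inl hl2, ?_⟩
      · intro x hx
        obtain ⟨h1, h2⟩ := Finset.mem_filter.1 hx
        exact ⟨h2, fun h3 => hTX1 x h1 (Finset.mem_filter.1 h3).1⟩
      · intro x hx
        rcases hTX2 x with h1 | h1
        · left; exact Finset.mem_filter.2 ⟨h1, hx⟩
        · right; exact Finset.mem_filter.2 ⟨h1, hBι x hx⟩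
      · intro x hx
        rcases hval x (Finset.mem_filter.1 hx).2 with h1 | h1
        · exact h1
        · rw [h1]
          subst hl2
          exact ZMod.neg_eq_self_mod_two _
    · have horbP : (orbit (P : Subgroup H) y0).Finite := Set.toFinite _
      have hmemB : ∀ γ : (P : Subgroup H), γ • y0 ∈ B := fun γ => hHB _ γ.1.2 y0 hy0B
      refine ⟨horbP.toFinset, ?_, ?_, Or.inr ⟨(P : Subgroup H).map H.subtype, y0, ?_⟩, ?_⟩
      · intro x hx
        rw [Set.Finite.mem_toFinset] at hx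
        obtain ⟨γ, rfl⟩ := hx
        refine ⟨hmemB γ, fun h => ?_⟩
        rw [Set.Finite.mem_toFinset] at h
        obtain ⟨γ', h1⟩ := h
        have h2 : f.1 (γ' • y0) = f.1 y0 := hfP γ' y0
        have h3 : (γ' • y0) = ι (γ • y0) := h1
        rw [h3, hfι _ (hmemB γ), hfP] at h2
        -- `- c = c`
        have h4 : (2 : ZMod l) * f.1 y0 = 0 := by
          have : f.1 y0 + f.1 y0 = 0 := by
            nth_rewrite 1 [← h2]
            exact neg_add_cancel _
          rw [two_mul]; exact this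
        rcases mul_eq_zero.1 h4 with h5 | h5
        · have h6 : ((2 : ℕ) : ZMod l) = 0 := by exact_mod_cast h5
          rw [ZMod.natCast_eq_zero_iff] at h6
          exact hl2 ((Nat.prime_dvd_prime_iff_eq hl.out Nat.prime_two).1 h6)
        · exact hy0 h5
      · intro x hx
        rw [Set.Finite.mem_toFinset, Set.Finite.mem_toFinset]
        obtain ⟨γ, h1 | h1⟩ := hpair x hx
        · left; exact ⟨γ, h1⟩
        · right; exact ⟨γ, h1⟩
      · rw [Set.Finite.coe_toFinset]
        ext x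
        constructor
        · rintro ⟨γ, rfl⟩
          exact ⟨⟨_, Subgroup.mem_map_of_mem H.subtype γ.2⟩, rfl⟩
        · rintro ⟨⟨γ, hγ⟩, rfl⟩
          obtain ⟨γ', hγ', rfl⟩ := Subgroup.mem_map.1 hγ
          exact ⟨⟨γ', hγ'⟩, rfl⟩
      · intro x hx
        rw [Set.Finite.mem_toFinset] at hx
        obtain ⟨γ, rfl⟩ := hx
        exact hfP γ y0
  refine hT T hT1 hT2 hT3 ?_
  -- the relation
  have hhalf : ∀ (S T : Finset X) (F : X → ℤ), (∀ x, F (ι x) = F x) →
      (∀ x ∈ T, x ∈ S ∧ ι x ∈ S ∧ ι x ∉ T) → (∀ x ∈ S, x ∈ T ∨ ι x ∈ T) →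
      ∑ x ∈ S, F x = 2 * ∑ x ∈ T, F x := by
    intro S T F hF h1 h2
    have h3 : S = T ∪ T.image ι := by
      ext x
      simp only [Finset.mem_union, Finset.mem_image]
      constructor
      · intro hx
        rcases h2 x hx with h | h
        · left; exact h
        · right; exact ⟨ι x, h, hι x⟩
      · rintro (h | ⟨y, hy, rfl⟩)
        · exact (h1 x h).1
        · exact (h1 y hy).2.1
    have h4 : Disjoint T (T.image ι) := by
      rw [Finset.disjoint_left]
      intro x hx hx'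
      obtain ⟨y, hy, rfl⟩ := Finset.mem_image.1 hx'
      exact (h1 y hy).2.2 hx
    rw [h3, Finset.sum_union h4, Finset.sum_image (fun x _ y _ h => by
      have := congrArg ι h
      rwa [hι, hι] at this), Finset.sum_congr rfl fun x _ => hF x]
    ring
  let F : X → ℤ := fun x => n x * M x
  have hF : ∀ x, F (ι x) = F x := by
    intro x
    simp only [F, hn1, hM]; ring
  have h0 : ∑ x, F x = 0 := by
    have := hn2 1
    simpa only [one_smul] using this
  have hBfin : B.Finite := Set.toFinite B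
  have hsplit : ∑ x, F x = ∑ x ∈ Finset.univ.filter (· ∈ B), F x +
      ∑ x ∈ Finset.univ.filter (fun x => ¬ x ∈ B), F x :=
    (Finset.sum_filter_add_sum_filter_not _ _ _).symm
  have hs1 : ∑ x ∈ Finset.univ.filter (· ∈ B), F x = 2 * ∑ x ∈ T, F x := by
    refine hhalf _ T F hF ?_ ?_
    · intro x hx
      simp only [Finset.mem_filter, Finset.mem_univ, true_and]
      exact ⟨(hT1 x hx).1, hBι _ (hT1 x hx).1, (hT1 x hx).2⟩
    · intro x hx
      exact hT2 x (by simpa using hx)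
  have hιB : ∀ x, x ∉ B → ι x ∉ B := by
    intro x hx h
    apply hx
    have := hBι _ h
    rwa [hι] at this
  have hs2 : ∑ x ∈ Finset.univ.filter (fun x => ¬ x ∈ B), F x =
      2 * ∑ x ∈ TX.filter (fun x => ¬ x ∈ B), F x := by
    refine hhalf _ _ F hF ?_ ?_
    · intro x hx
      obtain ⟨h1, h2⟩ := Finset.mem_filter.1 hx
      simp only [Finset.mem_filter, Finset.mem_univ, true_and]
      exact ⟨h2, hιB x h2, fun h => hTX1 x h1 h.1⟩
    · intro x hx
      have hxB : x ∉ B := by simpa using hx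
      rcases hTX2 x with h1 | h1
      · left; exact Finset.mem_filter.2 ⟨h1, hxB⟩
      · right; exact Finset.mem_filter.2 ⟨h1, hιB x hxB⟩
  rw [hsplit, hs1, hs2] at h0
  have h1 : ∑ x ∈ T, F x = - ∑ x ∈ TX.filter (fun x => ¬ x ∈ B), F x := by linarith
  have h2 : (l : ℤ) ∣ ∑ x ∈ T, F x := by
    rw [h1, dvd_neg]
    refine Finset.dvd_sum fun x hx => ?_
    exact Dvd.dvd.mul_left (hout x (Finset.mem_filter.1 hx).2) _
  rw [← ZMod.intCast_zmod_eq_zero_iff_dvd] at h2 ⊢
  push_cast at h2 ⊢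
  have h3 : ∑ x ∈ T, ((F x : ℤ) : ZMod l) = f.1 y0 * ∑ x ∈ T, ((M x : ℤ) : ZMod l) := by
    rw [Finset.mul_sum]
    refine Finset.sum_congr rfl fun x hx => ?_
    have h4 := hTf x hx
    rw [hfB' x (hT1 x hx).1] at h4
    simp only [F]
    push_cast
    rw [h4]
  rw [h3] at h2
  exact (mul_eq_zero.1 h2).resolve_left hy0

end main

end Pool.Agent.Hx18.PP
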