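import Pool.Agent.Hx18.PP.Syl

/-!
# Blocks with all weights but one odd, and two equal weights
-/

set_option autoImplicit false

namespace Pool.Agent.Hx18.PP

open MulAction Pointwise

section main

variable {Γ X : Type} [Group Γ] [Fintype X] [MulAction Γ X]

/-- Division by the greatest common divisor. -/
theorem exists_primitive (ι : X → X) (M : X → ℤ) (m : X → ℤ) (hm : ∀ x, m (ι x) = - m x)
    (hrel : ∀ γ : Γ, ∑ x, m (γ • x) * M x = 0) (l : ℕ) (hl : l.Prime) (hm0 : m ≠ 0) :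
    ∃ m' : X → ℤ, (∀ x, m' (ι x) = - m' x) ∧ (∀ γ : Γ, ∑ x, m' (γ • x) * M x = 0) ∧
      ∃ x, ¬ (l : ℤ) ∣ m' x := by
  classical
  obtain ⟨x0, hx0⟩ : ∃ x, m x ≠ 0 := by
    by_contra hcon
    push Not at hcon
    exact hm0 (funext hcon)
  obtain ⟨m', hmm', hgcd⟩ := Finset.extract_gcd (s := Finset.univ) m ⟨x0, Finset.mem_univ _⟩
  set d := Finset.univ.gcd m with hd
  have hd0 : d ≠ 0 := by
    intro h
    apply hx0
    rw [hmm' x0 (Finset.mem_univ _), h, zero_mul]
  refine ⟨m', ?_, ?_, ?_⟩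
  · intro x
    have h1 := hm x
    rw [hmm' _ (Finset.mem_univ _), hmm' x (Finset.mem_univ _)] at h1
    have h2 : d * m' (ι x) = d * (- m' x) := by rw [h1]; ring
    exact mul_left_cancel₀ hd0 h2
  · intro γ
    have h1 := hrel γ
    have h2 : ∑ x, m (γ • x) * M x = d * ∑ x, m' (γ • x) * M x := by
      rw [Finset.mul_sum]
      refine Finset.sum_congr rfl fun x _ => ?_
      rw [hmm' _ (Finset.mem_univ _)]; ring
    rw [h2] at h1
    exact (mul_eq_zero.1 h1).resolve_left hd0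
  · by_contra hcon
    push Not at hcon
    have h1 : (l : ℤ) ∣ Finset.univ.gcd m' := Finset.dvd_gcd fun x _ => hcon x
    rw [hgcd] at h1
    have h2 : (l : ℤ) = 1 ∨ (l : ℤ) = -1 := Int.isUnit_iff.1 (isUnit_of_dvd_one h1)
    have h3 := hl.one_lt
    omega

/-- In one block all weights but those of one pair are odd and the number of the pairs is even; the
other weights are even. -/
theorem rel_zero_but_one_block (ι : X → X) (hι : ∀ x, ι (ι x) = x)
    (hιs : ∀ (γ : Γ) x, ι (γ • x) = γ • ι x)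
    (hfix : ∀ x, ι x ≠ x) (htr : ∀ x y : X, ∃ γ : Γ, γ • x = y)
    (M : X → ℤ) (hM : ∀ x, M (ι x) = -M x)
    (B : Set X) (hBι : ∀ x ∈ B, ι x ∈ B)
    (hblock : ∀ γ : Γ, ∀ x ∈ B, γ • x ∈ B → ∀ y ∈ B, γ • y ∈ B)
    (g : ℕ) (hg : Even g) (hcard : B.ncard = 2 * g) (hout : ∀ x, x ∉ B → (2 : ℤ) ∣ M x)
    (x0 : X) (hx0B : x0 ∈ B) (h0 : (2 : ℤ) ∣ M x0)
    (h1 : ∀ x ∈ B, x ≠ x0 → x ≠ ι x0 → ¬ (2 : ℤ) ∣ M x)
    (m : X → ℤ) (hm : ∀ x, m (ι x) = - m x) (hrel : ∀ γ : Γ, ∑ x, m (γ • x) * M x = 0) :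
    m = 0 := by
  classical
  by_contra hm0
  obtain ⟨m', hm', hrel', x1, hx1⟩ := exists_primitive ι M m hm hrel 2 Nat.prime_two hm0
  -- a transversal
  obtain ⟨e⟩ : Nonempty (X ≃ Fin (Fintype.card X)) := ⟨Fintype.equivFin X⟩
  let T : Finset X := Finset.univ.filter fun x => e x < e (ι x)
  have hT1 : ∀ x ∈ T, ι x ∉ T := by
    intro x hx hx'
    simp only [T, Finset.mem_filter, Finset.mem_univ, true_and] at hx hx'
    rw [hι] at hx'
    exact lt_asymm hx hx'
  have hT2 : ∀ x, x ∈ T ∨ ι x ∈ T := by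
    intro x
    simp only [T, Finset.mem_filter, Finset.mem_univ, true_and, hι]
    exact lt_or_gt_of_ne fun h => hfix x (e.injective h).symm
  have hιinj : Function.Injective ι := fun x y h => by
    have := congrArg ι h
    rwa [hι, hι] at this
  have hU : (Finset.univ : Finset X) = T ∪ T.image ι := by
    ext x
    simp only [Finset.mem_univ, Finset.mem_union, Finset.mem_image, true_iff]
    rcases hT2 x with h | h
    · left; exact h
    · right; exact ⟨ι x, h, hι x⟩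
  have hdisj : Disjoint T (T.image ι) := by
    rw [Finset.disjoint_left]
    intro x hx hx'
    obtain ⟨y, hy, rfl⟩ := Finset.mem_image.1 hx'
    exact hT1 y hy hx
  have hhalf : ∀ F : X → ℤ, (∀ x, F (ι x) = F x) → ∑ x, F x = 2 * ∑ x ∈ T, F x := by
    intro F hF
    rw [hU, Finset.sum_union hdisj, Finset.sum_image (fun x _ y _ h => hιinj h),
      Finset.sum_congr rfl fun x _ => hF x]
    ring
  have hBι' : ∀ x, ι x ∈ B → x ∈ B := fun x hx => by
    have := hBι _ hx
    rwa [hι] at this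
  set TX : Finset X := T.filter fun x => x ∈ B with hTX
  have hmTX : ∀ x, x ∈ TX ↔ x ∈ T ∧ x ∈ B := fun x => by rw [hTX, Finset.mem_filter]
  have hTX1 : ∀ x ∈ TX, ι x ∉ TX := fun x hx hx' => hT1 x ((hmTX x).1 hx).1 ((hmTX _).1 hx').1
  have hTX2 : ∀ x ∈ B, x ∈ TX ∨ ι x ∈ TX := by
    intro x hx
    rcases hT2 x with h | h
    · exact Or.inl ((hmTX x).2 ⟨h, hx⟩)
    · exact Or.inr ((hmTX _).2 ⟨h, hBι x hx⟩)
  have hcT : TX.card = g := by
    have h2 : B.toFinset = TX ∪ TX.image ι := by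
      ext x
      rw [Set.mem_toFinset, Finset.mem_union, Finset.mem_image]
      constructor
      · intro hx
        rcases hTX2 x hx with h | h
        · left; exact h
        · right; exact ⟨ι x, h, hι x⟩
      · rintro (hx | ⟨y, hy, rfl⟩)
        · exact ((hmTX x).1 hx).2
        · exact hBι y ((hmTX y).1 hy).2
    have hdisj' : Disjoint TX (TX.image ι) := by
      rw [Finset.disjoint_left]
      intro x hx hx'
      obtain ⟨y, hy, rfl⟩ := Finset.mem_image.1 hx'
      exact hTX1 y hy hx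
    have h3 : B.ncard = 2 * TX.card := by
      rw [Set.ncard_eq_toFinset_card', h2, Finset.card_union_of_disjoint hdisj',
        Finset.card_image_of_injective _ hιinj]
      ring
    omega
  have hpar : ∀ x, ((m' (ι x) : ℤ) : ZMod 2) = ((m' x : ℤ) : ZMod 2) := by
    intro x
    rw [hm']; push_cast
    exact ZMod.neg_eq_self_mod_two _
  have hone : ∀ z : ℤ, ¬ (2 : ℤ) ∣ z → ((z : ℤ) : ZMod 2) = 1 := by
    intro z hz
    have h2 : ((z : ℤ) : ZMod 2) ≠ 0 := by
      intro h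
      exact hz ((ZMod.intCast_zmod_eq_zero_iff_dvd z 2).1 h)
    revert h2
    generalize ((z : ℤ) : ZMod 2) = t
    decide +revert
  have hzero : ∀ z : ℤ, (2 : ℤ) ∣ z → ((z : ℤ) : ZMod 2) = 0 := fun z hz =>
    (ZMod.intCast_zmod_eq_zero_iff_dvd z 2).2 (by exact_mod_cast hz)
  -- the sum over a transversal of the block depends only on the coset
  have hsum : ∀ δ ρ : Γ, (∀ y ∈ B, ρ • y ∈ B) → (∀ y ∈ B, ρ⁻¹ • y ∈ B) →
      ∑ x ∈ TX, ((m' ((δ * ρ) • x) : ℤ) : ZMod 2) = ∑ x ∈ TX, ((m' (δ • x) : ℤ) : ZMod 2) := by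
    intro δ ρ hρ hρ'
    let r : X → X := fun x => if ρ • x ∈ TX then ρ • x else ι (ρ • x)
    refine Finset.sum_bij (fun x _ => r x) ?_ ?_ ?_ ?_
    · intro x hx
      simp only [r]
      split_ifs with h
      · exact h
      · exact (hTX2 _ (hρ _ ((hmTX x).1 hx).2)).resolve_left h
    · intro x hx y hy hxy
      simp only [r] at hxy
      split_ifs at hxy with h2 h3 h3
      · exact MulAction.injective ρ hxy
      · exfalso
        rw [hιs] at hxy
        have h4 := MulAction.injective ρ hxy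
        rw [h4] at hx
        exact hTX1 y hy hx
      · exfalso
        rw [hιs] at hxy
        have h4 := MulAction.injective ρ hxy
        rw [← h4] at hy
        exact hTX1 x hx hy
      · exact MulAction.injective ρ (hιinj hxy)
    · intro y hy
      have hyB := ((hmTX y).1 hy).2
      rcases hTX2 _ (hρ' y hyB) with h | h
      · refine ⟨ρ⁻¹ • y, h, ?_⟩
        simp only [r, smul_inv_smul, if_pos hy]
      · refine ⟨ι (ρ⁻¹ • y), h, ?_⟩
        simp only [r]
        rw [← hιs, smul_inv_smul, if_neg (fun h => hTX1 _ hy h), hι]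
    · intro x hx
      simp only [r]
      rw [mul_smul]
      split_ifs
      · rfl
      · rw [← hιs]; exact (hpar _).symm
  obtain ⟨x0', hx0', hx0T⟩ : ∃ x0', (x0' = x0 ∨ x0' = ι x0) ∧ x0' ∈ TX := by
    rcases hTX2 x0 hx0B with h | h
    · exact ⟨x0, Or.inl rfl, h⟩
    · exact ⟨ι x0, Or.inr rfl, h⟩
  have hval : ∀ γ : Γ, ((m' (γ • x0) : ℤ) : ZMod 2) =
      ∑ x ∈ TX, ((m' (γ • x) : ℤ) : ZMod 2) := by
    intro γ
    have h2 : ∑ x ∈ T, m' (γ • x) * M x = 0 := by
      have h3 := hhalf (fun x => m' (γ • x) * M x) (by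
        intro x
        change m' (γ • ι x) * M (ι x) = m' (γ • x) * M x
        rw [← hιs, hm', hM]; ring)
      rw [hrel'] at h3
      linarith
    have h3 : ∑ x ∈ T, ((m' (γ • x) : ℤ) : ZMod 2) * ((M x : ℤ) : ZMod 2) = 0 := by
      have := congrArg (fun z : ℤ => (z : ZMod 2)) h2
      push_cast at this
      exact this
    have h3' : ∑ x ∈ TX, ((m' (γ • x) : ℤ) : ZMod 2) * ((M x : ℤ) : ZMod 2) = 0 := by
      rw [← h3, hTX, Finset.sum_filter]
      refine Finset.sum_congr rfl fun x _ => ?_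
      split_ifs with h
      · rfl
      · rw [hzero _ (hout x h), mul_zero]
    have h4 : ∀ x ∈ TX, ((m' (γ • x) : ℤ) : ZMod 2) * ((M x : ℤ) : ZMod 2) =
        ((m' (γ • x) : ℤ) : ZMod 2) - if x = x0' then ((m' (γ • x) : ℤ) : ZMod 2) else 0 := by
      intro x hx
      by_cases hxx : x = x0'
      · rw [if_pos hxx, sub_self]
        have h5 : ((M x : ℤ) : ZMod 2) = 0 := by
          apply hzero
          rw [hxx]
          rcases hx0' with rfl | rfl
          · exact h0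
          · rw [hM]; exact (dvd_neg.2 h0)
        rw [h5, mul_zero]
      · rw [if_neg hxx, sub_zero]
        have h5 : x ≠ x0 := by
          rintro rfl
          rcases hx0' with rfl | rfl
          · exact hxx rfl
          · exact hTX1 _ hx hx0T
        have h6 : x ≠ ι x0 := by
          rintro rfl
          rcases hx0' with rfl | rfl
          · exact hTX1 _ hx0T hx
          · exact hxx rfl
        rw [hone _ (h1 x ((hmTX x).1 hx).2 h5 h6), mul_one]
    rw [Finset.sum_congr rfl h4, Finset.sum_sub_distrib, Finset.sum_ite_eq' TX x0', if_pos hx0T,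
      sub_eq_zero] at h3'
    rw [h3']
    rcases hx0' with rfl | rfl
    · rfl
    · rw [← hιs, hpar]
  have hconst : ∀ γ : Γ, ∀ y ∈ B, ((m' (γ • y) : ℤ) : ZMod 2) =
      ∑ x ∈ TX, ((m' (γ • x) : ℤ) : ZMod 2) := by
    intro γ y hy
    obtain ⟨ρ, hρ⟩ := htr x0 y
    have h2 : ∀ z ∈ B, ρ • z ∈ B := hblock ρ x0 hx0B (by rw [hρ]; exact hy)
    have h3 : ∀ z ∈ B, ρ⁻¹ • z ∈ B := hblock ρ⁻¹ y hy (by rw [← hρ, inv_smul_smul]; exact hx0B)
    rw [← hρ, ← mul_smul, hval, hsum γ ρ h2 h3]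
  have hS0 : ∀ γ : Γ, ∑ x ∈ TX, ((m' (γ • x) : ℤ) : ZMod 2) = 0 := by
    intro γ
    rw [Finset.sum_congr rfl fun x hx => hconst γ x ((hmTX x).1 hx).2, Finset.sum_const, hcT,
      nsmul_eq_mul]
    obtain ⟨r, rfl⟩ := hg
    have : ((r + r : ℕ) : ZMod 2) = 0 := by
      rw [ZMod.natCast_eq_zero_iff]
      exact ⟨r, by ring⟩
    rw [this, zero_mul]
  obtain ⟨γ, rfl⟩ := htr x0 x1
  apply hx1
  have h2 := hval γ
  rw [hS0] at h2
  exact (ZMod.intCast_zmod_eq_zero_iff_dvd _ 2).1 h2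

/-- Two weights that are equal modulo `l` and not divisible by `l`, the others being divisible by
`l`: if there is a relation then some subgroup larger than the stabilizer does not contain the
element `c` which acts as `ι`. -/
theorem exists_subgroup (c : Γ) (hcc : ∀ (γ : Γ) (x : X), γ • c • x = c • γ • x)
    (htr : ∀ x y : X, ∃ γ : Γ, γ • x = y)
    (M : X → ℤ) (hM : ∀ x, M (c • x) = -M x) (l : ℕ) (hl : l.Prime) (hl2 : l ≠ 2)
    (x1 x2 : X) (hfix1 : c • x1 ≠ x1) (hfix2 : c • x2 ≠ x2) (hne : x2 ≠ x1) (hne' : x2 ≠ c • x1)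
    (hcx : ∀ x : X, c • c • x = x)
    (h1 : ¬ (l : ℤ) ∣ M x1) (h12 : (l : ℤ) ∣ M x1 - M x2)
    (hout : ∀ x, x ≠ x1 → x ≠ c • x1 → x ≠ x2 → x ≠ c • x2 → (l : ℤ) ∣ M x)
    (m : X → ℤ) (hm : ∀ x, m (c • x) = - m x) (hrel : ∀ γ : Γ, ∑ x, m (γ • x) * M x = 0)
    (hm0 : m ≠ 0) :
    ∃ (U : Subgroup Γ) (t : Γ), stabilizer Γ x1 ≤ U ∧ c ∉ U ∧ t • x1 = x2 ∧ t * c ∈ U := by
  classical
  have hlF := Fact.mk hl
  obtain ⟨m', hm', hrel', z, hz⟩ := exists_primitive (fun x => c • x) M m hm hrel l hl hm0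
  have hcast0 : ∀ n : ℤ, (l : ℤ) ∣ n → ((n : ℤ) : ZMod l) = 0 := fun n hn =>
    (ZMod.intCast_zmod_eq_zero_iff_dvd n l).2 hn
  have hM12 : ((M x2 : ℤ) : ZMod l) = ((M x1 : ℤ) : ZMod l) := by
    have h2 := hcast0 _ h12
    push_cast at h2
    exact (sub_eq_zero.1 h2).symm
  have hM1 : ((M x1 : ℤ) : ZMod l) ≠ 0 := fun h =>
    h1 ((ZMod.intCast_zmod_eq_zero_iff_dvd _ l).1 h)
  have h2ne : (2 : ZMod l) ≠ 0 := by
    intro h
    have h3 : ((2 : ℕ) : ZMod l) = 0 := by exact_mod_cast h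
    rw [ZMod.natCast_eq_zero_iff] at h3
    have h4 := Nat.le_of_dvd (by norm_num) h3
    have h5 := hl.two_le
    omega
  have hcx1 : c • x1 ≠ x1 := hfix1
  -- the relation modulo `l`
  have key : ∀ γ : Γ, ((m' (γ • x2) : ℤ) : ZMod l) = - ((m' (γ • x1) : ℤ) : ZMod l) := by
    intro γ
    have h3 := congrArg (fun n : ℤ => (n : ZMod l)) (hrel' γ)
    push_cast at h3
    have hc2 : c • x2 ≠ x1 := fun h => hne' (by rw [← h, hcx])
    have hc12 : c • x2 ≠ c • x1 := fun h => hne (MulAction.injective c h)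
    have h4 : ∑ x, ((m' (γ • x) : ℤ) : ZMod l) * ((M x : ℤ) : ZMod l) =
        ∑ x ∈ ({x1, c • x1, x2, c • x2} : Finset X),
          ((m' (γ • x) : ℤ) : ZMod l) * ((M x : ℤ) : ZMod l) := by
      symm
      refine Finset.sum_subset (Finset.subset_univ _) fun x _ hx => ?_
      simp only [Finset.mem_insert, Finset.mem_singleton, not_or] at hx
      rw [hcast0 _ (hout x hx.1 hx.2.1 hx.2.2.1 hx.2.2.2), mul_zero]
    have hγc : ∀ x : X, m' (γ • c • x) = - m' (γ • x) := by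
      intro x
      rw [hcc]
      exact hm' _
    rw [h4, Finset.sum_insert (by simp [hcx1.symm, hne.symm, hc2.symm]),
      Finset.sum_insert (by simp [hne'.symm, hc12.symm]),
      Finset.sum_insert (by simp [hfix2.symm]), Finset.sum_singleton, hγc, hγc, hM, hM] at h3
    push_cast at h3
    rw [hM12] at h3
    have h5 : (2 : ZMod l) * ((M x1 : ℤ) : ZMod l) *
        (((m' (γ • x1) : ℤ) : ZMod l) + ((m' (γ • x2) : ℤ) : ZMod l)) = 0 := by
      linear_combination h3
    have h6 := (mul_eq_zero.1 h5).resolve_left (mul_ne_zero h2ne hM1)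
    linear_combination h6
  obtain ⟨t, ht⟩ := htr x1 x2
  let U : Subgroup Γ :=
    { carrier := {h | ∀ γ : Γ, ((m' ((γ * h) • x1) : ℤ) : ZMod l) = ((m' (γ • x1) : ℤ) : ZMod l)}
      mul_mem' := by
        intro g h hg hh γ
        rw [← mul_assoc, hh, hg]
      one_mem' := by
        intro γ
        rw [mul_one]
      inv_mem' := by
        intro g hg γ
        rw [← hg (γ * g⁻¹), mul_assoc, inv_mul_cancel, mul_one] }
  refine ⟨U, t, ?_, ?_, ht, ?_⟩
  · intro s hs γ
    rw [mul_smul, mem_stabilizer_iff.1 hs]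
  · intro hcU
    obtain ⟨γ, hγ⟩ := htr x1 z
    have h3 := hcU γ
    rw [mul_smul, hcc, hm', hγ] at h3
    push_cast at h3
    have h4 : (2 : ZMod l) * ((m' z : ℤ) : ZMod l) = 0 := by linear_combination -h3
    have h5 := (mul_eq_zero.1 h4).resolve_left h2ne
    exact hz ((ZMod.intCast_zmod_eq_zero_iff_dvd _ l).1 h5)
  · intro γ
    rw [mul_smul, mul_smul, hcc t, hcc γ, hm', ht]
    push_cast
    rw [key γ, neg_neg]

end main

end Pool.Agent.Hx18.PP
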